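import Pool.Agent.R146.VG.Count

/-!
# The asymptotic form
-/

set_option autoImplicit false

namespace Pool.Agent.R146.VG

open Set Filter Topology

lemma log_factorial_ge (k : ℕ) (hk : 1 ≤ k) :
    (k : ℝ) * Real.log k - k ≤ Real.log (k.factorial) := by
  have h1 := Real.pow_div_factorial_le_exp (k : ℝ) (Nat.cast_nonneg k) k
  have hk0 : (0 : ℝ) < k := by exact_mod_cast hk
  have hf : (0 : ℝ) < k.factorial := by exact_mod_cast k.factorial_pos
  have h2 : 0 < (k : ℝ) ^ k / k.factorial := by positivity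
  have h3 := Real.log_le_log h2 h1
  rw [Real.log_exp, Real.log_div (by positivity) hf.ne', Real.log_pow] at h3
  linarith

lemma log_N_ge (n : ℕ) (hn : 20 ≤ n) :
    (n : ℝ) / 3 * Real.log n - n - 10 / 3 * Real.log n ≤ Real.log (N n) := by
  set k : ℕ := (n + 1) / 3 - 3 with hk
  have hk1 : 1 ≤ k := by omega
  have h1 := factorial_le n (by omega)
  rw [← hk] at h1
  have h2 : Real.log (k.factorial) ≤ Real.log (N n) :=
    Real.log_le_log (by exact_mod_cast k.factorial_pos) (by exact_mod_cast h1)
  have h3 := log_factorial_ge k hk1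
  have hkn : ((n : ℝ) - 10) / 3 ≤ k := by
    have : n ≤ 3 * k + 10 := by omega
    have : (n : ℝ) ≤ 3 * k + 10 := by exact_mod_cast this
    linarith
  have hn0 : (20 : ℝ) ≤ n := by exact_mod_cast hn
  have hk6 : (n : ℝ) / 6 ≤ k := by linarith
  have hk0 : (0 : ℝ) < k := by exact_mod_cast hk1
  have hlog : Real.log n - 2 ≤ Real.log k := by
    have h5 : Real.log ((n : ℝ) / 6) ≤ Real.log k := Real.log_le_log (by linarith) hk6
    rw [Real.log_div (by linarith) (by norm_num)] at h5
    have h6 : Real.log 6 ≤ 2 := by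
      rw [Real.log_le_iff_le_exp (by norm_num)]
      have := Real.exp_one_gt_d9
      have e : Real.exp 2 = Real.exp 1 * Real.exp 1 := by rw [← Real.exp_add]; norm_num
      rw [e]
      nlinarith
    linarith
  have hlog3 : 0 ≤ Real.log n - 3 ∨ Real.log n - 3 < 0 := le_or_gt _ _
  have h7 : (k : ℝ) * (Real.log n - 3) ≤ Real.log (N n) := by
    have : (k : ℝ) * (Real.log n - 3) ≤ k * Real.log k - k := by
      have := mul_le_mul_of_nonneg_left hlog hk0.le
      linarith
    linarith
  rcases hlog3 with h | h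
  · have h8 : ((n : ℝ) - 10) / 3 * (Real.log n - 3) ≤ k * (Real.log n - 3) :=
      mul_le_mul_of_nonneg_right hkn h
    nlinarith
  · have h9 : (0 : ℝ) ≤ Real.log (N n) := by
      apply Real.log_nonneg
      have : 1 ≤ N n := le_trans (Nat.succ_le_of_lt (Nat.factorial_pos _)) h1
      exact_mod_cast this
    have h10 : 0 ≤ Real.log n := Real.log_nonneg (by linarith)
    nlinarith

theorem eventually_N (ε : ℝ) (hε : 0 < ε) :
    ∀ᶠ n : ℕ in atTop, (1 / 3 - ε) * (n * Real.logb 2 n) ≤ Real.logb 2 (N n) := by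
  have h1 : Tendsto (fun n : ℕ => Real.log n) atTop atTop :=
    Real.tendsto_log_atTop.comp tendsto_natCast_atTop_atTop
  have h2 := h1.eventually_ge_atTop (2 / ε)
  have h3 : ∀ᶠ n : ℕ in atTop, 10 / 3 * Real.log n ≤ n := by
    have h4 := Real.isLittleO_log_id_atTop.comp_tendsto tendsto_natCast_atTop_atTop
    have h5 := h4.bound (show (0 : ℝ) < 3 / 10 by norm_num)
    filter_upwards [h5, eventually_ge_atTop 1] with n hn hn1
    simp only [Function.comp, id, Real.norm_eq_abs] at hn
    have : (0 : ℝ) ≤ n := Nat.cast_nonneg n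
    rw [abs_of_nonneg this] at hn
    have := le_abs_self (Real.log n)
    linarith
  filter_upwards [h2, h3, eventually_ge_atTop 20] with n hn1 hn2 hn3
  have h6 := log_N_ge n hn3
  have hlog2 : 0 < Real.log 2 := Real.log_pos (by norm_num)
  have h0 : (0 : ℝ) ≤ n := Nat.cast_nonneg n
  have h7 : 2 ≤ ε * Real.log n := by
    rw [div_le_iff₀ hε] at hn1
    linarith
  have h8 : (2 : ℝ) * n ≤ ε * Real.log n * n := mul_le_mul_of_nonneg_right h7 h0
  unfold Real.logb
  rw [mul_div_assoc', mul_div_assoc', div_le_div_iff_of_pos_right hlog2]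
  nlinarith

end Pool.Agent.R146.VG
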