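import Mathlib

/-!
# Rigidity of certain split graphs
-/

set_option autoImplicit false

namespace Pool.Agent.R146.VG

open Set

lemma ncard_pair_le' {α : Type*} (a b : α) : ({a, b} : Set α).ncard ≤ 2 := by
  refine (Set.ncard_insert_le _ _).trans ?_
  rw [Set.ncard_singleton]

/-- The split graph of a relation: `K` is a clique, `T` is independent. -/
def split {K T : Type*} (R : K → T → Prop) : SimpleGraph (K ⊕ T) where
  Adj x y := match x, y with
    | .inl a, .inl b => a ≠ b
    | .inl a, .inr t => R a t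
    | .inr t, .inl a => R a t
    | .inr _, .inr _ => False
  symm := ⟨by
    rintro (a | t) (b | u) h
    · exact Ne.symm h
    · exact h
    · exact h
    · exact h⟩
  loopless := ⟨by
    rintro (a | t) h
    · exact h rfl
    · exact h⟩

section split
variable {K T : Type*} [Fintype K] [Fintype T]

lemma ncard_nbr_inl (R : K → T → Prop) (k : K) :
    Fintype.card K - 1 ≤ ((split R).neighborSet (.inl k)).ncard := by
  classical
  have h1 : (Sum.inl '' {b : K | b ≠ k} : Set (K ⊕ T)) ⊆ (split R).neighborSet (.inl k) := by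
    rintro _ ⟨b, hb, rfl⟩
    exact Ne.symm hb
  have h2 := Set.ncard_le_ncard h1 (Set.toFinite _)
  rw [Set.ncard_image_of_injective _ Sum.inl_injective] at h2
  have h3 : {b : K | b ≠ k} = (Set.univ : Set K) \ {k} := by ext; simp
  rw [h3, Set.ncard_sdiff_singleton_of_mem (Set.mem_univ k), Set.ncard_univ,
    Nat.card_eq_fintype_card] at h2
  exact h2

lemma ncard_nbr_inr (R : K → T → Prop) (t : T) :
    ((split R).neighborSet (.inr t)).ncard = {k | R k t}.ncard := by
  have : (split R).neighborSet (.inr t) = Sum.inl '' {k | R k t} := by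
    ext x
    rcases x with a | u
    · constructor
      · intro h; exact ⟨a, h, rfl⟩
      · rintro ⟨b, hb, hba⟩
        cases hba; exact hb
    · constructor
      · intro h; exact absurd h id
      · rintro ⟨b, hb, hba⟩
        cases hba
  rw [this, Set.ncard_image_of_injective _ Sum.inl_injective]

lemma ncard_nbr_iso {V W : Type*} {G : SimpleGraph V} {H : SimpleGraph W} (φ : G ≃g H) (v : V) :
    (H.neighborSet (φ v)).ncard = (G.neighborSet v).ncard := by
  have : H.neighborSet (φ v) = φ '' G.neighborSet v := by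
    ext x
    constructor
    · intro h
      refine ⟨φ.symm x, ?_, by simp⟩
      have : H.Adj (φ v) (φ (φ.symm x)) := by simpa using h
      exact φ.map_adj_iff.1 this
    · rintro ⟨y, hy, rfl⟩
      exact φ.map_adj_iff.2 hy
  rw [this, Set.ncard_image_of_injective _ φ.injective]

/-- An isomorphism of two split graphs whose independent vertices have small degree induces
bijections of the two parts. -/
lemma split_iso (R R' : K → T → Prop) (hR : ∀ t, {k | R k t}.ncard < Fintype.card K - 1)
    (hR' : ∀ t, {k | R' k t}.ncard < Fintype.card K - 1) (φ : split R ≃g split R') :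
    ∃ (σ : T → T) (κ : K → K), Function.Injective σ ∧ Function.Surjective σ ∧
      (∀ k t, R k t ↔ R' (κ k) (σ t)) ∧
      ∀ t, {k | R' k (σ t)}.ncard = {k | R k t}.ncard := by
  classical
  have h1 : ∀ t, ∃ u, φ (.inr t) = .inr u := by
    intro t
    rcases h : φ (.inr t) with k | u
    · exfalso
      have e1 := ncard_nbr_iso φ (.inr t)
      rw [h, ncard_nbr_inr] at e1
      have e2 := ncard_nbr_inl R' k
      have e3 := hR t
      omega
    · exact ⟨u, rfl⟩
  have h2 : ∀ k, ∃ u, φ (.inl k) = .inl u := by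
    intro k
    rcases h : φ (.inl k) with u | t
    · exact ⟨u, rfl⟩
    · exfalso
      have e1 := ncard_nbr_iso φ (.inl k)
      rw [h, ncard_nbr_inr] at e1
      have e2 := ncard_nbr_inl R k
      have e3 := hR' t
      omega
  choose σ hσ using h1
  choose κ hκ using h2
  have hinj : Function.Injective σ := by
    intro a b hab
    have : φ (.inr a) = φ (.inr b) := by rw [hσ, hσ, hab]
    exact Sum.inr_injective (φ.injective this)
  refine ⟨σ, κ, hinj, Finite.surjective_of_injective hinj, ?_, ?_⟩
  · intro k t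
    have : (split R').Adj (φ (.inl k)) (φ (.inr t)) ↔ (split R).Adj (.inl k) (.inr t) :=
      φ.map_adj_iff
    rw [hσ, hκ] at this
    exact this.symm
  · intro t
    have e1 := ncard_nbr_iso φ (.inr t)
    rw [hσ, ncard_nbr_inr, ncard_nbr_inr] at e1
    exact e1

end split

/-- A permutation of `0, …, m - 1` which maps neighbours to neighbours and does not map `0` to
`m - 1` is the identity. -/
lemma perm_path (m : ℕ) (hm : 2 ≤ m) (τ : ℕ → ℕ) (h1 : ∀ i, i < m → τ i < m)
    (hinj : ∀ i j, i < m → j < m → τ i = τ j → i = j)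
    (h2 : ∀ i, i + 1 < m → τ (i + 1) = τ i + 1 ∨ τ i = τ (i + 1) + 1) (h0 : τ 0 ≠ m - 1) :
    ∀ i, i < m → τ i = i := by
  rcases h2 0 (by omega) with h | h
  · have key : ∀ i, i + 1 < m → τ i = τ 0 + i ∧ τ (i + 1) = τ 0 + (i + 1) := by
      intro i
      induction i with
      | zero => intro _; exact ⟨by simp, by simpa using h⟩
      | succ i ih =>
        intro hi
        obtain ⟨e1, e2⟩ := ih (by omega)
        refine ⟨e2, ?_⟩
        rcases h2 (i + 1) hi with e | e
        · omega
        · exfalso
          have : τ (i + 1 + 1) = τ i := by omega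
          have := hinj _ _ hi (by omega) this
          omega
    have e0 : τ 0 = 0 := by
      have := (key (m - 2) (by omega)).2
      have h3 := h1 (m - 2 + 1) (by omega)
      omega
    intro i hi
    rcases Nat.eq_zero_or_pos i with h3 | h3
    · rw [h3, e0]
    · have := (key (i - 1) (by omega)).2
      have e : i - 1 + 1 = i := by omega
      rw [e, e0] at this
      omega
  · exfalso
    have key : ∀ i, i + 1 < m → τ i + i = τ 0 ∧ τ (i + 1) + (i + 1) = τ 0 := by
      intro i
      induction i with
      | zero => intro _; exact ⟨by simp, by simpa using h.symm⟩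
      | succ i ih =>
        intro hi
        obtain ⟨e1, e2⟩ := ih (by omega)
        refine ⟨e2, ?_⟩
        rcases h2 (i + 1) hi with e | e
        · exfalso
          have : τ (i + 1 + 1) = τ i := by omega
          have := hinj _ _ hi (by omega) this
          omega
        · omega
    have := (key (m - 2) (by omega)).2
    have h3 := h1 0 (by omega)
    omega

/-- The relation between the clique vertices (teeth `r` and bottom vertices `j`) and the notch
vertices `t`. -/
def rel (m s : ℕ) (d : ℕ → ℕ) : Fin (m + 1) ⊕ Fin (m - 2 + s) → Fin m → Prop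
  | .inl r, t => r.val = t.val ∨ r.val = t.val + 1
  | .inr j, t => j.val - s ≤ t.val ∧ t.val ≤ j.val - s + d t.val

/-- The admissible reach functions. -/
structure Adm (m : ℕ) (d : ℕ → ℕ) : Prop where
  pos : ∀ i, 1 ≤ d i
  two : ∀ i, 2 ≤ i → 2 ≤ d i
  le : ∀ i, 2 ≤ i → d i ≤ i
  last : d (m - 1) = m - 1

lemma rel_ncard_lt (m s : ℕ) (hm : 4 ≤ m) (d : ℕ → ℕ) (t : Fin m) :
    {k | rel m s d k t}.ncard < Fintype.card (Fin (m + 1) ⊕ Fin (m - 2 + s)) - 1 := by
  classical
  have h1 : {k | rel m s d k t} ⊆
      ({Sum.inl ⟨t.val, by omega⟩, Sum.inl ⟨t.val + 1, by omega⟩} ∪ Set.range Sum.inr :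
        Set (Fin (m + 1) ⊕ Fin (m - 2 + s))) := by
    rintro (r | j) h
    · left
      rcases h with h | h
      · left; congr 1; exact Fin.ext h
      · right; rw [Set.mem_singleton_iff]; congr 1; exact Fin.ext h
    · right; exact ⟨j, rfl⟩
  have h2 := Set.ncard_le_ncard h1 (Set.toFinite _)
  have h3 := Set.ncard_union_le
    ({Sum.inl ⟨t.val, by omega⟩, Sum.inl ⟨t.val + 1, by omega⟩} :
      Set (Fin (m + 1) ⊕ Fin (m - 2 + s))) (Set.range Sum.inr)
  have h4 : ({Sum.inl ⟨t.val, by omega⟩, Sum.inl ⟨t.val + 1, by omega⟩} :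
      Set (Fin (m + 1) ⊕ Fin (m - 2 + s))).ncard ≤ 2 := ncard_pair_le' _ _
  have h5 : (Set.range (Sum.inr : Fin (m - 2 + s) → Fin (m + 1) ⊕ Fin (m - 2 + s))).ncard
      = m - 2 + s := by
    rw [← Set.image_univ, Set.ncard_image_of_injective _ Sum.inr_injective, Set.ncard_univ,
      Nat.card_eq_fintype_card, Fintype.card_fin]
  simp only [Fintype.card_sum, Fintype.card_fin]
  omega

theorem rigid (m s : ℕ) (hm : 4 ≤ m) (d d' : ℕ → ℕ) (hd : Adm m d) (hd' : Adm m d')
    (φ : split (rel m s d) ≃g split (rel m s d')) :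
    ∀ i, 2 ≤ i → i < m - 1 → d i = d' i := by
  classical
  obtain ⟨σ, κ, hinj, hsurj, hrel, hcard⟩ :=
    split_iso _ _ (rel_ncard_lt m s hm d) (rel_ncard_lt m s hm d') φ
  -- bottom vertices have at least three notch neighbours
  have hthree : ∀ (j : Fin (m - 2 + s)) (a b : Fin m),
      ¬ (∀ t, rel m s d' (.inr j) t → t = a ∨ t = b) := by
    intro j a b h
    have hj := j.isLt
    have e : ∀ c, ∀ hc : c ≤ 2, rel m s d' (.inr j) ⟨j.val - s + c, by omega⟩ := by
      intro c hc
      refine ⟨by simp, ?_⟩
      simp only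
      rcases Nat.lt_or_ge (j.val - s + c) 2 with h2 | h2
      · have := hd'.pos (j.val - s + c)
        omega
      · have := hd'.two (j.val - s + c) h2
        omega
    have e0 := h _ (e 0 (by omega))
    have e1 := h _ (e 1 (by omega))
    have e2 := h _ (e 2 (by omega))
    simp only [Fin.ext_iff] at e0 e1 e2
    omega
  -- neighbours are mapped to neighbours
  have hstep : ∀ i : ℕ, ∀ hi : i + 1 < m,
      (σ ⟨i + 1, hi⟩).val = (σ ⟨i, by omega⟩).val + 1 ∨
        (σ ⟨i, by omega⟩).val = (σ ⟨i + 1, hi⟩).val + 1 := by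
    intro i hi
    have hr : ∀ t, rel m s d (.inl ⟨i + 1, by omega⟩) t ↔ t = ⟨i, by omega⟩ ∨ t = ⟨i + 1, hi⟩ := by
      intro t
      simp only [rel, Fin.ext_iff]
      omega
    have hne : σ ⟨i, by omega⟩ ≠ σ ⟨i + 1, hi⟩ := by
      intro h
      have := hinj h
      simp [Fin.ext_iff] at this
    have hall : ∀ t, rel m s d' (κ (.inl ⟨i + 1, by omega⟩)) t ↔
        t = σ ⟨i, by omega⟩ ∨ t = σ ⟨i + 1, hi⟩ := by
      intro t
      obtain ⟨u, rfl⟩ := hsurj t
      rw [← hrel, hr, hinj.eq_iff, hinj.eq_iff]
    rcases hk : κ (.inl ⟨i + 1, by omega⟩) with r | j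
    · rw [hk] at hall
      have h1 := (hall (σ ⟨i, by omega⟩)).2 (Or.inl rfl)
      have h2 := (hall (σ ⟨i + 1, hi⟩)).2 (Or.inr rfl)
      simp only [rel] at h1 h2
      have h3 : (σ ⟨i, by omega⟩).val ≠ (σ ⟨i + 1, hi⟩).val := fun h => hne (Fin.ext h)
      omega
    · rw [hk] at hall
      exact absurd (fun t ht => (hall t).1 ht) (hthree j _ _)
  -- the ends are not exchanged
  have hend : (σ ⟨0, by omega⟩).val ≠ m - 1 := by
    intro h
    have h1 := hcard ⟨0, by omega⟩
    have e1 : {k | rel m s d k ⟨0, by omega⟩} ⊆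
        ({Sum.inl ⟨0, by omega⟩, Sum.inl ⟨1, by omega⟩} ∪
          Sum.inr '' ((fun x : Fin (s + 1) => (⟨x.val, by omega⟩ : Fin (m - 2 + s))) '' Set.univ) :
          Set (Fin (m + 1) ⊕ Fin (m - 2 + s))) := by
      rintro (r | j) h
      · left
        rcases h with h | h
        · left; congr 1; exact Fin.ext h
        · right; rw [Set.mem_singleton_iff]; congr 1; exact Fin.ext (by simpa using h)
      · right
        refine ⟨j, ⟨⟨j.val, ?_⟩, trivial, rfl⟩, rfl⟩
        have := h.1
        simp only at this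
        omega
    have e2 : ({Sum.inl ⟨m - 1, by omega⟩, Sum.inl ⟨m, by omega⟩} ∪
        Sum.inr '' (Set.univ : Set (Fin (m - 2 + s))) : Set (Fin (m + 1) ⊕ Fin (m - 2 + s))) ⊆
          {k | rel m s d' k (σ ⟨0, by omega⟩)} := by
      rintro x (hx | ⟨j, -, rfl⟩)
      · rcases hx with rfl | hx
        · left; exact h.symm
        · rw [Set.mem_singleton_iff] at hx
          subst hx
          right; simp only; omega
      · refine ⟨by omega, ?_⟩
        rw [h, hd'.last]
        omega
    have e3 := Set.ncard_le_ncard e1 (Set.toFinite _)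
    have e4 := Set.ncard_le_ncard e2 (Set.toFinite _)
    have e5 := Set.ncard_union_le ({Sum.inl ⟨0, by omega⟩, Sum.inl ⟨1, by omega⟩} :
      Set (Fin (m + 1) ⊕ Fin (m - 2 + s))) (Sum.inr ''
        ((fun x : Fin (s + 1) => (⟨x.val, by omega⟩ : Fin (m - 2 + s))) '' Set.univ))
    have e6 : ({Sum.inl ⟨0, by omega⟩, Sum.inl ⟨1, by omega⟩} :
      Set (Fin (m + 1) ⊕ Fin (m - 2 + s))).ncard ≤ 2 := ncard_pair_le' _ _
    have e7 : ((fun x : Fin (s + 1) => (⟨x.val, by omega⟩ : Fin (m - 2 + s))) ''
        Set.univ).ncard ≤ s + 1 := by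
      refine (Set.ncard_image_le (Set.toFinite _)).trans ?_
      rw [Set.ncard_univ, Nat.card_eq_fintype_card, Fintype.card_fin]
    rw [Set.ncard_image_of_injective _ Sum.inr_injective] at e5
    have e8 : (Sum.inr '' (Set.univ : Set (Fin (m - 2 + s))) :
        Set (Fin (m + 1) ⊕ Fin (m - 2 + s))).ncard = m - 2 + s := by
      rw [Set.ncard_image_of_injective _ Sum.inr_injective, Set.ncard_univ,
        Nat.card_eq_fintype_card, Fintype.card_fin]
    have e9 : ({Sum.inl ⟨m - 1, by omega⟩, Sum.inl ⟨m, by omega⟩} :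
      Set (Fin (m + 1) ⊕ Fin (m - 2 + s))).ncard = 2 := by
      apply Set.ncard_pair
      intro h
      have := Sum.inl_injective h
      simp only [Fin.mk.injEq] at this
      omega
    rw [Set.ncard_union_eq (by
      rw [Set.disjoint_left]
      rintro x (rfl | rfl) ⟨j, -, hj⟩ <;> cases hj) (Set.toFinite _) (Set.toFinite _), e8, e9] at e4
    omega
  have hid := perm_path m (by omega) (fun i => if h : i < m then (σ ⟨i, h⟩).val else 0)
    (fun i hi => by simp [hi])
    (fun i j hi hj h => by
      simp only [hi, hj, dif_pos] at h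
      have := hinj (Fin.ext h)
      simpa [Fin.ext_iff] using this)
    (fun i hi => by
      have h1 : i < m := by omega
      simp only [hi, h1, dif_pos]
      exact hstep i hi)
    (by
      have h1 : 0 < m := by omega
      simp only [h1, dif_pos]
      exact hend)
  -- compare degrees
  have hlt : ∀ (e e' : ℕ → ℕ), Adm m e → Adm m e' → ∀ i, ∀ h2 : 2 ≤ i, ∀ hi : i < m - 1,
      e i < e' i →
      {k | rel m s e k ⟨i, by omega⟩}.ncard < {k | rel m s e' k ⟨i, by omega⟩}.ncard := by
    intro e e' he he' i h2 hi hlt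
    apply Set.ncard_lt_ncard _ (Set.toFinite _)
    refine ⟨?_, ?_⟩
    · rintro (r | j) h
      · exact h
      · refine ⟨h.1, h.2.trans ?_⟩
        simp only
        omega
    · intro hsub
      have l1 := he'.le i h2
      have l2 := he'.two i h2
      have hmem : (Sum.inr ⟨i - e' i + s, by omega⟩ : Fin (m + 1) ⊕ Fin (m - 2 + s)) ∈
          {k | rel m s e' k ⟨i, by omega⟩} := by
        refine ⟨?_, ?_⟩ <;> simp only <;> omega
      have := hsub hmem
      have h3 := this.2
      simp only at h3
      omega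
  intro i h2 hi
  have him : i < m := by omega
  have h3 := hid i him
  simp only [him, dif_pos] at h3
  have h4 : σ ⟨i, him⟩ = ⟨i, him⟩ := Fin.ext h3
  have h5 := hcard ⟨i, him⟩
  rw [h4] at h5
  rcases lt_trichotomy (d i) (d' i) with h | h | h
  · have := hlt d d' hd hd' i h2 hi h
    omega
  · exact h
  · have := hlt d' d hd' hd i h2 hi h
    omega

end Pool.Agent.R146.VG
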