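import Pool.Agent.R146.VG.Vis

/-!
# Counting the visibility graphs
-/

set_option autoImplicit false

namespace Pool.Agent.R146.VG

open Set Filter Topology

/-- the reach function of a code word -/
def reach (m : ℕ) (c : ∀ i : Fin (m - 3), Fin (i.val + 1)) (i : ℕ) : ℕ :=
  if i ≤ 1 then 1 else if h : i - 2 < m - 3 then 2 + (c ⟨i - 2, h⟩).val else i

lemma reach_adm (m : ℕ) (hm : 4 ≤ m) (c : ∀ i : Fin (m - 3), Fin (i.val + 1)) :
    Adm m (reach m c) := by
  refine ⟨?_, ?_, ?_, ?_⟩
  · intro i
    unfold reach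
    split_ifs <;> omega
  · intro i hi
    unfold reach
    split_ifs <;> omega
  · intro i hi
    unfold reach
    split_ifs with h1 h2
    · omega
    · have := (c ⟨i - 2, h2⟩).isLt
      simp only at this
      omega
    · omega
  · unfold reach
    split_ifs <;> omega

lemma reach_le (m : ℕ) (hm : 4 ≤ m) (c : ∀ i : Fin (m - 3), Fin (i.val + 1)) (i : ℕ)
    (hi : i < m) : 1 ≤ reach m c i ∧ reach m c i ≤ m := by
  have h := reach_adm m hm c
  refine ⟨h.pos i, ?_⟩
  rcases Nat.lt_or_ge i 2 with h1 | h1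
  · unfold reach
    split_ifs <;> omega
  · have := h.le i h1
    omega

theorem factorial_le_N (m s : ℕ) (hm : 4 ≤ m) (hs : s ≤ 2) :
    (m - 3).factorial ≤ N (nv m s) := by
  classical
  have hex := fun c : (∀ i : Fin (m - 3), Fin (i.val + 1)) =>
    exists_polygon (m := m) (s := s) (d := reach m c) hm hs (reach_le m hm c)
  choose v P hP hiso using hex
  set Φ : (∀ i : Fin (m - 3), Fin (i.val + 1)) → Quotient (isoSetoid (nv m s)) :=
    fun c => Quotient.mk (isoSetoid (nv m s)) (visGraph (nv m s) (v c) (P c)) with hΦ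
  have hinj : Function.Injective Φ := by
    intro c c' h
    have h1 : Nonempty (visGraph (nv m s) (v c) (P c) ≃g visGraph (nv m s) (v c') (P c')) :=
      Quotient.exact h
    obtain ⟨e⟩ := h1
    obtain ⟨e1⟩ := hiso c
    obtain ⟨e2⟩ := hiso c'
    have h2 := rigid m s hm (reach m c) (reach m c') (reach_adm m hm c) (reach_adm m hm c')
      ((e1.symm.trans e).trans e2)
    funext i
    have hi := i.isLt
    have h3 := h2 (i.val + 2) (by omega) (by omega)
    unfold reach at h3
    have a1 : ¬ (i.val + 2 ≤ 1) := by omega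
    have a2 : i.val + 2 - 2 < m - 3 := by omega
    simp only [a1, if_false, a2, dif_pos] at h3
    apply Fin.ext
    have a3 : (⟨i.val + 2 - 2, a2⟩ : Fin (m - 3)) = i := Fin.ext (by simp)
    have a4 : ∀ (x y : Fin (m - 3)) (_ : x = y), (c x).val = (c y).val := by
      rintro x _ rfl; rfl
    have a5 : ∀ (x y : Fin (m - 3)) (_ : x = y), (c' x).val = (c' y).val := by
      rintro x _ rfl; rfl
    rw [← a4 _ _ a3, ← a5 _ _ a3]
    omega
  have hfin : Finite (Quotient (isoSetoid (nv m s))) := inferInstance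
  have hsub : Set.range Φ ⊆ {c : Quotient (isoSetoid (nv m s)) |
      ∃ v P, IsPolygon (nv m s) v P ∧ c = Quotient.mk (isoSetoid (nv m s))
        (visGraph (nv m s) v P)} := by
    rintro _ ⟨c, rfl⟩
    exact ⟨v c, P c, hP c, rfl⟩
  have h1 := Set.ncard_le_ncard hsub (Set.toFinite _)
  have h2 : (Set.range Φ).ncard = (m - 3).factorial := by
    rw [← Set.image_univ, Set.ncard_image_of_injective _ hinj, Set.ncard_univ,
      Nat.card_eq_fintype_card, Fintype.card_pi]
    simp only [Fintype.card_fin]
    rw [Fin.prod_univ_eq_prod_range (fun i => i + 1) (m - 3), Finset.prod_range_add_one_eq_factorial]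
  rw [h2] at h1
  exact h1

theorem factorial_le (n : ℕ) (hn : 11 ≤ n) : ((n + 1) / 3 - 3).factorial ≤ N n := by
  have h := factorial_le_N ((n + 1) / 3) ((n + 1) % 3) (by omega) (by omega)
  have e : nv ((n + 1) / 3) ((n + 1) % 3) = n := by
    unfold nv
    omega
  rwa [e] at h

end Pool.Agent.R146.VG
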