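import Mathlib

/-!
# Visibility graphs of simple polygons: definitions
-/

set_option autoImplicit false

namespace Pool.Agent.R146.VG

/-- `P` is the closed region bounded by the simple closed polygonal curve with the `n` vertices
`v 0, …, v (n - 1)` (in cyclic order; the sequence `v` is continued periodically, so that the edges
are the segments from `v i` to `v (i + 1)` for `i < n`).
Consecutive edges meet exactly in their common vertex and do not lie on a common line, all other
pairs of edges are disjoint. The region `P` is the compact set with nonempty interior whose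
topological boundary is the curve (by the Jordan curve theorem there is exactly one such set,
namely the union of the curve and the bounded component of its complement). -/
structure IsPolygon (n : ℕ) (v : ℕ → ℝ × ℝ) (P : Set (ℝ × ℝ)) : Prop where
  three_le : 3 ≤ n
  periodic : ∀ i, v (i + n) = v i
  consecutive : ∀ i, i < n →
    segment ℝ (v i) (v (i + 1)) ∩ segment ℝ (v (i + 1)) (v (i + 2)) = {v (i + 1)}
  not_collinear : ∀ i, i < n → ¬ Collinear ℝ {v i, v (i + 1), v (i + 2)}
  disjoint : ∀ i j, i + 1 < j → j < n → j + 1 < i + n →
    Disjoint (segment ℝ (v i) (v (i + 1))) (segment ℝ (v j) (v (j + 1)))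
  compact : IsCompact P
  interior_nonempty : (interior P).Nonempty
  frontier_eq : frontier P = {x | ∃ i, i < n ∧ x ∈ segment ℝ (v i) (v (i + 1))}

/-- The visibility graph: two different vertices are adjacent if the closed segment joining them is
contained in the closed region `P`. -/
def visGraph (n : ℕ) (v : ℕ → ℝ × ℝ) (P : Set (ℝ × ℝ)) : SimpleGraph (Fin n) where
  Adj i j := i ≠ j ∧ segment ℝ (v i) (v j) ⊆ P
  symm := ⟨fun i j h => ⟨h.1.symm, by rw [segment_symm]; exact h.2⟩⟩
  loopless := ⟨fun i h => h.1 rfl⟩

/-- Isomorphism of graphs with vertex set `Fin n`. -/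
def isoSetoid (n : ℕ) : Setoid (SimpleGraph (Fin n)) where
  r G H := Nonempty (G ≃g H)
  iseqv := ⟨fun _ => ⟨SimpleGraph.Iso.refl⟩, fun ⟨e⟩ => ⟨e.symm⟩, fun ⟨e⟩ ⟨f⟩ => ⟨e.trans f⟩⟩

/-- `N n` is the number of isomorphism classes of graphs that are visibility graphs of simple
polygons with `n` vertices. -/
noncomputable def N (n : ℕ) : ℕ :=
  Set.ncard {c : Quotient (isoSetoid n) |
    ∃ v P, IsPolygon n v P ∧ c = Quotient.mk (isoSetoid n) (visGraph n v P)}

end Pool.Agent.R146.VG
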