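import Pool.Agent.R146.VG.Mono
import Pool.Agent.R146.VG.Comb

/-!
# The polygons
-/

set_option autoImplicit false

namespace Pool.Agent.R146.VG

open Set

/-- the horizontal offset of the notch vertices -/
noncomputable def dl (m : ℕ) : ℝ := 1 / (8 * m)

/-- top chain -/
noncomputable def tX (m : ℕ) (i : ℕ) : ℝ :=
  if i % 2 = 0 then ((i / 2 : ℕ) : ℝ) else ((i / 2 : ℕ) : ℝ) + 1 - dl m
noncomputable def tY (m : ℕ) (d : ℕ → ℕ) (i : ℕ) : ℝ :=
  if i % 2 = 0 then 0 else (1 - dl m) / d (i / 2)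

/-- bottom vertices -/
noncomputable def bx (s : ℕ) (j : ℕ) : ℝ := ((j - s : ℕ) : ℝ) + 1 / 4 + ((min j s : ℕ) : ℝ) / 8
noncomputable def bz (m s : ℕ) (j : ℕ) : ℝ := 1 + bx s j * (m - bx s j) / m ^ 3

/-- bottom chain -/
noncomputable def bU (m s : ℕ) (j : ℕ) : ℝ :=
  if j = 0 then 0 else if j ≤ m - 2 + s then bx s (j - 1) else m
noncomputable def bW (m s : ℕ) (j : ℕ) : ℝ :=
  if j = 0 then 0 else if j ≤ m - 2 + s then - bz m s (j - 1) else 0

lemma tX_even (m a : ℕ) : tX m (2 * a) = a := by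
  have h1 : (2 * a) % 2 = 0 := by omega
  have h2 : 2 * a / 2 = a := by omega
  simp [tX, h2]

lemma tX_odd (m a : ℕ) : tX m (2 * a + 1) = a + 1 - dl m := by
  have h1 : (2 * a + 1) % 2 = 1 := by omega
  have h2 : (2 * a + 1) / 2 = a := by omega
  simp [tX, h1, h2]

lemma tY_even (m a : ℕ) (d : ℕ → ℕ) : tY m d (2 * a) = 0 := by
  simp [tY]

lemma tY_odd (m a : ℕ) (d : ℕ → ℕ) : tY m d (2 * a + 1) = (1 - dl m) / d a := by
  have h1 : (2 * a + 1) % 2 = 1 := by omega
  have h2 : (2 * a + 1) / 2 = a := by omega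
  simp [tY, h1, h2]

lemma bU_zero (m s : ℕ) : bU m s 0 = 0 := by simp [bU]
lemma bW_zero (m s : ℕ) : bW m s 0 = 0 := by simp [bW]
lemma bU_succ (m s j : ℕ) (h : j < m - 2 + s) : bU m s (j + 1) = bx s j := by
  simp [bU, Nat.succ_le_of_lt h]
lemma bW_succ (m s j : ℕ) (h : j < m - 2 + s) : bW m s (j + 1) = - bz m s j := by
  simp [bW, Nat.succ_le_of_lt h]
lemma bU_last (m s : ℕ) : bU m s (m - 2 + s + 1) = m := by
  simp [bU]
lemma bW_last (m s : ℕ) : bW m s (m - 2 + s + 1) = 0 := by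
  simp [bW]

section
variable {m s : ℕ} {d : ℕ → ℕ}

lemma dl_pos (hm : 4 ≤ m) : 0 < dl m := by
  have : (0 : ℝ) < m := by exact_mod_cast (by omega : 0 < m)
  unfold dl; positivity

lemma dl_le (hm : 4 ≤ m) : dl m ≤ 1 / 32 := by
  have : (4 : ℝ) ≤ m := by exact_mod_cast hm
  unfold dl
  rw [div_le_div_iff₀ (by positivity) (by norm_num)]
  linarith

lemma bx_ge (s j : ℕ) : ((j - s : ℕ) : ℝ) + 1 / 4 ≤ bx s j := by
  unfold bx
  have : (0 : ℝ) ≤ ((min j s : ℕ) : ℝ) := Nat.cast_nonneg _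
  linarith

lemma bx_le (hs : s ≤ 2) (j : ℕ) : bx s j ≤ ((j - s : ℕ) : ℝ) + 1 / 2 := by
  unfold bx
  have : ((min j s : ℕ) : ℝ) ≤ 2 := by exact_mod_cast (min_le_right j s).trans hs
  linarith

lemma bx_pos (s j : ℕ) : 0 < bx s j := by
  have := bx_ge s j
  have h : (0 : ℝ) ≤ ((j - s : ℕ) : ℝ) := Nat.cast_nonneg _
  linarith

lemma bx_lt (hm : 4 ≤ m) (hs : s ≤ 2) {j : ℕ} (hj : j < m - 2 + s) : bx s j < m - 2 := by
  have h := bx_le hs j
  have h1 : ((j - s : ℕ) : ℝ) ≤ ((m - 3 : ℕ) : ℝ) := by exact_mod_cast (by omega : j - s ≤ m - 3)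
  have h2 : ((m - 3 : ℕ) : ℝ) = m - 3 := by push_cast [show 3 ≤ m by omega]; ring
  linarith

lemma bx_strictMono (s j : ℕ) : bx s j < bx s (j + 1) := by
  unfold bx
  rcases Nat.lt_or_ge j s with h | h
  · have e1 : j - s = 0 := by omega
    have e2 : j + 1 - s = 0 := by omega
    have e3 : min j s = j := by omega
    have e4 : min (j + 1) s = j + 1 := by omega
    rw [e1, e2, e3, e4]
    push_cast
    linarith
  · have e1 : j + 1 - s = (j - s) + 1 := by omega
    have e3 : min j s = s := by omega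
    have e4 : min (j + 1) s = s := by omega
    rw [e1, e3, e4]
    push_cast
    linarith

lemma bz_ge (hm : 4 ≤ m) (hs : s ≤ 2) {j : ℕ} (hj : j < m - 2 + s) : 1 ≤ bz m s j := by
  have h1 := bx_pos s j
  have h2 := bx_lt hm hs hj
  have h3 : (0 : ℝ) < m := by exact_mod_cast (by omega : 0 < m)
  unfold bz
  have : 0 ≤ bx s j * (m - bx s j) / (m : ℝ) ^ 3 :=
    div_nonneg (mul_nonneg h1.le (by linarith)) (by positivity)
  linarith

lemma bz_le (hm : 4 ≤ m) (j : ℕ) : bz m s j ≤ 1 + 1 / (4 * m) := by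
  have h3 : (0 : ℝ) < m := by exact_mod_cast (by omega : 0 < m)
  unfold bz
  have h4 : bx s j * (m - bx s j) ≤ (m : ℝ) ^ 2 / 4 := by nlinarith [sq_nonneg (2 * bx s j - m)]
  have : bx s j * (m - bx s j) / (m : ℝ) ^ 3 ≤ 1 / (4 * m) := by
    rw [div_le_div_iff₀ (by positivity) (by positivity)]
    have e : (m : ℝ) ^ 3 = m ^ 2 * m := by ring
    rw [e]
    nlinarith
  linarith

/-- slopes of the top chain -/
lemma slp_top_even (hm : 4 ≤ m) (a : ℕ) : slp (tX m) (tY m d) (2 * a) = 1 / d a := by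
  have h1 := dl_pos hm
  have h2 := dl_le hm
  unfold slp
  rw [tX_odd, tX_even, tY_odd, tY_even]
  have : (1 - dl m) ≠ 0 := by linarith
  have e : (a : ℝ) + 1 - dl m - a = 1 - dl m := by ring
  rw [e, sub_zero, div_div, mul_comm, ← div_div, div_self this]

lemma slp_top_odd (hm : 4 ≤ m) (a : ℕ) :
    slp (tX m) (tY m d) (2 * a + 1) = - ((1 - dl m) / d a / dl m) := by
  have h1 := dl_pos hm
  have h2 := dl_le hm
  unfold slp
  have e0 : 2 * a + 1 + 1 = 2 * (a + 1) := by ring
  rw [e0, tX_odd, tX_even, tY_odd, tY_even]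
  push_cast
  have e : (a : ℝ) + 1 - (a + 1 - dl m) = dl m := by ring
  rw [e, zero_sub, neg_div]

lemma slp_bot_mid (hm : 4 ≤ m) {j : ℕ} (hj : j + 1 < m - 2 + s) :
    slp (bU m s) (bW m s) (j + 1) = (bx s j + bx s (j + 1) - m) / m ^ 3 := by
  have h3 : (0 : ℝ) < m := by exact_mod_cast (by omega : 0 < m)
  have h4 := bx_strictMono s j
  unfold slp
  rw [bU_succ _ _ _ hj, bU_succ _ _ _ (by omega), bW_succ _ _ _ hj, bW_succ _ _ _ (by omega)]
  unfold bz
  have : bx s (j + 1) - bx s j ≠ 0 := by linarith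
  field_simp
  ring

lemma slp_bot_zero (hm : 4 ≤ m) (hs : s ≤ 2) : slp (bU m s) (bW m s) 0 < -1 := by
  unfold slp
  rw [bU_zero, bW_zero, bU_succ _ _ _ (by omega), bW_succ _ _ _ (by omega)]
  have h1 := bz_ge hm hs (j := 0) (by omega)
  have h2 := bx_pos s 0
  have h3 := bx_le hs 0
  simp only [zero_le, Nat.sub_eq_zero_of_le, Nat.cast_zero] at h3
  rw [sub_zero, sub_zero, neg_div, neg_lt_neg_iff, lt_div_iff₀ h2]
  linarith

lemma slp_bot_last (hm : 4 ≤ m) (hs : s ≤ 2) :
    1 / (m : ℝ) < slp (bU m s) (bW m s) (m - 2 + s) := by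
  have h0 : (0 : ℝ) < m := by exact_mod_cast (by omega : 0 < m)
  obtain ⟨j, hj⟩ : ∃ j, m - 2 + s = j + 1 := ⟨m - 3 + s, by omega⟩
  unfold slp
  rw [bU_last, bW_last, hj, bU_succ _ _ _ (by omega), bW_succ _ _ _ (by omega)]
  have h1 := bz_ge hm hs (j := j) (by omega)
  have h2 := bx_pos s j
  have h3 := bx_lt hm hs (j := j) (by omega)
  rw [div_lt_div_iff₀ h0 (by linarith)]
  nlinarith

lemma slp_bot_lt (hm : 4 ≤ m) (hs : s ≤ 2) {j : ℕ} (hj : j < m - 2 + s) :
    slp (bU m s) (bW m s) j < slp (bU m s) (bW m s) (j + 1) := by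
  have h0 : (4 : ℝ) ≤ m := by exact_mod_cast hm
  have hlow : ∀ i, i + 1 < m - 2 + s → -1 < slp (bU m s) (bW m s) (i + 1) := by
    intro i hi
    rw [slp_bot_mid hm hi, lt_div_iff₀ (by positivity)]
    have := bx_pos s i
    have := bx_pos s (i + 1)
    have : (m : ℝ) ≤ m ^ 3 := by nlinarith [sq_nonneg (m : ℝ)]
    linarith
  have hhigh : ∀ i, i + 1 < m - 2 + s → slp (bU m s) (bW m s) (i + 1) < 1 / m := by
    intro i hi
    rw [slp_bot_mid hm hi, div_lt_div_iff₀ (by positivity) (by positivity)]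
    have h1 := bx_lt hm hs (j := i) (by omega)
    have h2 := bx_lt hm hs hi
    have : (m : ℝ) ^ 2 ≤ m ^ 3 := by nlinarith [sq_nonneg (m : ℝ)]
    nlinarith
  rcases Nat.eq_zero_or_pos j with h | h
  · subst h
    have h1 := slp_bot_zero hm hs
    have h2 := hlow 0 (by omega)
    linarith
  · obtain ⟨i, rfl⟩ : ∃ i, j = i + 1 := ⟨j - 1, by omega⟩
    rcases Nat.lt_or_ge (i + 1 + 1) (m - 2 + s) with h1 | h1
    · rw [slp_bot_mid hm hj, slp_bot_mid hm h1, div_lt_div_iff_of_pos_right (by positivity)]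
      have := bx_strictMono s i
      have := bx_strictMono s (i + 1)
      linarith
    · have e : i + 1 + 1 = m - 2 + s := by omega
      have h2 := hhigh i hj
      have h3 := slp_bot_last hm hs
      rw [e]
      linarith

lemma tX_lt (hm : 4 ≤ m) (i : ℕ) : tX m i < tX m (i + 1) := by
  have h1 := dl_pos hm
  have h2 := dl_le hm
  rcases Nat.even_or_odd' i with ⟨a, rfl | rfl⟩
  · rw [tX_even, tX_odd]; linarith
  · have e0 : 2 * a + 1 + 1 = 2 * (a + 1) := by ring
    rw [tX_odd, e0, tX_even]; push_cast; linarith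

lemma bU_lt (hm : 4 ≤ m) (hs : s ≤ 2) {j : ℕ} (hj : j < m - 2 + s + 1) :
    bU m s j < bU m s (j + 1) := by
  rcases Nat.eq_zero_or_pos j with h | h
  · subst h
    rw [bU_zero, bU_succ _ _ _ (by omega)]
    exact bx_pos s 0
  · obtain ⟨i, rfl⟩ : ∃ i, j = i + 1 := ⟨j - 1, by omega⟩
    rw [bU_succ _ _ i (by omega)]
    rcases Nat.lt_or_ge (i + 1) (m - 2 + s) with h1 | h1
    · rw [bU_succ _ _ _ h1]
      exact bx_strictMono s i
    · have e : i + 1 + 1 = m - 2 + s + 1 := by omega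
      rw [e, bU_last]
      have := bx_lt hm hs (j := i) (by omega)
      linarith

lemma aff_eq_comb {X Y : ℕ → ℝ} {i : ℕ} (h : X i < X (i + 1)) (x : ℝ) :
    aff X Y i x = (1 - (x - X i) / (X (i + 1) - X i)) * Y i +
      (x - X i) / (X (i + 1) - X i) * Y (i + 1) := by
  have : X (i + 1) - X i ≠ 0 := by linarith
  unfold aff slp
  field_simp
  ring

lemma tY_nonneg (hm : 4 ≤ m) (i : ℕ) : 0 ≤ tY m d i := by
  have h2 := dl_le hm
  rcases Nat.even_or_odd' i with ⟨a, rfl | rfl⟩
  · rw [tY_even]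
  · rw [tY_odd]
    exact div_nonneg (by linarith) (Nat.cast_nonneg _)

/-- the data of our polygons -/
theorem monoData (hm : 4 ≤ m) (hs : s ≤ 2) (hd : ∀ i, i < m → 1 ≤ d i ∧ d i ≤ m) :
    ∃ f g : ℝ → ℝ, MonoData (2 * m) (m - 2 + s + 1) (tX m) (tY m d) (bU m s) (bW m s) f g ∧
      (∀ x : ℝ, 0 ≤ x → x ≤ m → 0 ≤ f x) ∧ ∀ x : ℝ, 0 ≤ x → x ≤ m → g x ≤ 0 := by
  have hdl := dl_pos hm
  have hdl' := dl_le hm
  obtain ⟨f, hf, hfk, hfa⟩ := exists_pl (tX m) (tY m d) (2 * m) (fun i _ => tX_lt hm i)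
  obtain ⟨g, hg, hgk, hga⟩ := exists_pl (bU m s) (bW m s) (m - 2 + s + 1)
    (fun i hi => bU_lt hm hs hi)
  have e0 : tX m 0 = 0 := by have := tX_even m 0; simpa using this
  have e1 : tX m (2 * m) = m := tX_even m m
  have hf0 : ∀ x : ℝ, 0 ≤ x → x ≤ m → 0 ≤ f x := by
    intro x h0 h1
    obtain ⟨i, hi, h2, h3⟩ := exists_step (X := tX m) (k := 2 * m) (by omega) x
      (by rw [e0]; exact h0) (by rw [e1]; exact h1)
    have hlt := tX_lt hm i
    rw [hfa i hi x h2 h3, aff_eq_comb hlt]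
    have t0 : 0 ≤ (x - tX m i) / (tX m (i + 1) - tX m i) := div_nonneg (by linarith) (by linarith)
    have t1 : (x - tX m i) / (tX m (i + 1) - tX m i) ≤ 1 := by
      rw [div_le_one (by linarith)]; linarith
    have y0 := tY_nonneg (d := d) hm i
    have y1 := tY_nonneg (d := d) hm (i + 1)
    have := mul_nonneg (sub_nonneg.2 t1) y0
    have := mul_nonneg t0 y1
    linarith
  have hg1 : ∀ x : ℝ, 0 < x → x < m → g x < 0 := by
    intro x h0 h1
    obtain ⟨j, hj, h2, h3⟩ := exists_step (X := bU m s) (k := m - 2 + s + 1) (by omega) x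
      (by rw [bU_zero]; exact h0.le) (by rw [bU_last]; exact h1.le)
    have hlt := bU_lt hm hs hj
    rw [hga j hj x h2 h3, aff_eq_comb hlt]
    have t0 : 0 ≤ (x - bU m s j) / (bU m s (j + 1) - bU m s j) :=
      div_nonneg (by linarith) (by linarith)
    have t1 : (x - bU m s j) / (bU m s (j + 1) - bU m s j) ≤ 1 := by
      rw [div_le_one (by linarith)]; linarith
    rcases Nat.eq_zero_or_pos j with h | h
    · subst h
      have t2 : 0 < (x - bU m s 0) / (bU m s (0 + 1) - bU m s 0) := by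
        apply div_pos _ (by linarith)
        rw [bU_zero]; linarith
      have hz := bz_ge hm hs (j := 0) (by omega)
      rw [bW_zero, bW_succ _ _ 0 (by omega), mul_zero, zero_add]
      have := mul_pos t2 (lt_of_lt_of_le one_pos hz)
      linarith
    · obtain ⟨i, rfl⟩ : ∃ i, j = i + 1 := ⟨j - 1, by omega⟩
      have hz := bz_ge hm hs (j := i) (by omega)
      rcases Nat.lt_or_ge (i + 1) (m - 2 + s) with h4 | h4
      · have hz' := bz_ge hm hs (j := i + 1) h4
        rw [bW_succ _ _ i (by omega), bW_succ _ _ (i + 1) (by omega)]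
        nlinarith
      · have e : i + 1 = m - 2 + s := by omega
        have t2 : (x - bU m s (i + 1)) / (bU m s (i + 1 + 1) - bU m s (i + 1)) < 1 := by
          rw [div_lt_one (by linarith)]
          have : bU m s (i + 1 + 1) = m := by rw [e, bU_last]
          linarith
        have : bW m s (i + 1 + 1) = 0 := by rw [e, bW_last]
        rw [this, mul_zero, add_zero, bW_succ _ _ i (by omega)]
        nlinarith
  have hg0 : ∀ x : ℝ, 0 ≤ x → x ≤ m → g x ≤ 0 := by
    intro x h0 h1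
    have a1 : g 0 = 0 := by
      have hlt := bU_lt hm hs (j := 0) (by omega)
      rw [hga 0 (by omega) 0 (by rw [bU_zero]) (by rw [bU_zero] at hlt; exact hlt.le)]
      have := aff_left (bU m s) (bW m s) 0
      rw [bU_zero] at this
      rw [this, bW_zero]
    have a2 : g m = 0 := by
      rw [bU_last, bW_last] at hgk
      exact hgk
    rcases h0.eq_or_lt with h2 | h2
    · rw [← h2, a1]
    · rcases h1.eq_or_lt with h3 | h3
      · rw [h3, a2]
      · exact (hg1 x h2 h3).le
  refine ⟨f, g, ⟨by omega, by omega, by omega, ?_, ?_, ?_, ?_, fun i _ => tX_lt hm i,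
    fun i hi => bU_lt hm hs hi, hf, hg, hfa, hga, ?_, ?_, ?_, ?_, ?_⟩, hf0, hg0⟩
  · rw [e0, bU_zero]
  · rw [bW_zero]; have := tY_even m 0 d; simpa using this
  · rw [e1, bU_last]
  · rw [bW_last]; exact tY_even m m d
  · intro x h0 h1
    rw [e0] at h0
    rw [e1] at h1
    exact (hg1 x h0 h1).trans_le (hf0 x h0.le h1.le)
  · intro i hi
    rcases Nat.even_or_odd' i with ⟨a, rfl | rfl⟩
    · have := (hd a (by omega)).1
      have hd0 : (0 : ℝ) < d a := by exact_mod_cast this
      rw [slp_top_even hm, slp_top_odd hm]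
      have h1 : 0 < 1 / (d a : ℝ) := by positivity
      have h2 : 0 < (1 - dl m) / (d a : ℝ) / dl m := div_pos (div_pos (by linarith) hd0) hdl
      intro h
      linarith
    · have := (hd a (by omega)).1
      have hd0 : (0 : ℝ) < d a := by exact_mod_cast this
      have := (hd (a + 1) (by omega)).1
      have hd1 : (0 : ℝ) < d (a + 1) := by exact_mod_cast this
      have e : 2 * a + 1 + 1 = 2 * (a + 1) := by ring
      rw [e, slp_top_even hm, slp_top_odd hm]
      have h1 : 0 < 1 / (d (a + 1) : ℝ) := by positivity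
      have h2 : 0 < (1 - dl m) / (d a : ℝ) / dl m := div_pos (div_pos (by linarith) hd0) hdl
      intro h
      linarith
  · intro j hj
    exact (slp_bot_lt hm hs (by omega)).ne
  · have := (hd 0 (by omega)).1
    have hd0 : (0 : ℝ) < d 0 := by exact_mod_cast this
    have h1 : 0 < 1 / (d 0 : ℝ) := by positivity
    have h2 := slp_bot_zero hm hs
    have h3 := slp_top_even (d := d) hm 0
    simp only [mul_zero] at h3
    rw [h3]
    intro h
    linarith
  · obtain ⟨a, ha⟩ : ∃ a, m = a + 1 := ⟨m - 1, by omega⟩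
    have e : 2 * m - 1 = 2 * a + 1 := by omega
    have e2 : m - 2 + s + 1 - 1 = m - 2 + s := by omega
    have := (hd a (by omega)).1
    have hd0 : (0 : ℝ) < d a := by exact_mod_cast this
    have h2 : 0 < (1 - dl m) / (d a : ℝ) / dl m := div_pos (div_pos (by linarith) hd0) hdl
    have h3 := slp_bot_last hm hs
    have h4 : (0 : ℝ) < 1 / m := by
      have : (0 : ℝ) < m := by exact_mod_cast (by omega : 0 < m)
      positivity
    rw [e, e2, slp_top_odd hm]
    intro h
    linarith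

end

/-- convex chains lie above their supporting lines -/
lemma aff_le {U W : ℕ → ℝ} {l : ℕ} (hU : ∀ j, j < l → U j < U (j + 1))
    (hs : ∀ j, j + 1 < l → slp U W j < slp U W (j + 1)) {j : ℕ} (hj : j < l) {x : ℝ}
    (h0 : U j ≤ x) (h1 : x ≤ U (j + 1)) {e : ℕ} (he : e < l) : aff U W e x ≤ aff U W j x := by
  have hstep : ∀ i, i + 1 < l → aff U W (i + 1) x - aff U W i x =
      (slp U W (i + 1) - slp U W i) * (x - U (i + 1)) := by
    intro i hi
    have := aff_right U W i (hU i (by omega))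
    unfold aff at this ⊢
    have h2 : W (i + 1) = W i + slp U W i * (U (i + 1) - U i) := this.symm
    rw [h2]; ring
  have hdown : ∀ c, ∀ e, e + c = j → aff U W e x ≤ aff U W j x := by
    intro c
    induction c with
    | zero => intro e he; simp at he; rw [he]
    | succ c ih =>
      intro e he
      have h2 := ih (e + 1) (by omega)
      have h3 := hstep e (by omega)
      have h4 : U (e + 1) ≤ U j := mono_le hU (by omega) hj.le
      have h5 := hs e (by omega)
      have h6 : 0 ≤ (slp U W (e + 1) - slp U W e) * (x - U (e + 1)) :=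
        mul_nonneg (by linarith) (by linarith)
      linarith
  have hup : ∀ c, j + c < l → aff U W (j + c) x ≤ aff U W j x := by
    intro c
    induction c with
    | zero => intro _; simp
    | succ c ih =>
      intro hc
      have h2 := ih (by omega)
      have h3 := hstep (j + c) (by omega)
      have h4 : U (j + 1) ≤ U (j + c + 1) := mono_le hU (by omega) (by omega)
      have h5 := hs (j + c) (by omega)
      have h6 : (slp U W (j + c + 1) - slp U W (j + c)) * (x - U (j + c + 1)) ≤ 0 :=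
        mul_nonpos_of_nonneg_of_nonpos (by linarith) (by linarith)
      have e : j + (c + 1) = j + c + 1 := by ring
      rw [e]
      linarith
  rcases Nat.le_total e j with h | h
  · exact hdown (j - e) e (by omega)
  · have := hup (e - j) (by omega)
    have e2 : j + (e - j) = e := by omega
    rwa [e2] at this

end Pool.Agent.R146.VG
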