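import Pool.Agent.R146.VG.Defs

/-!
# x-monotone polygons
-/

set_option autoImplicit false

namespace Pool.Agent.R146.VG

open Set

lemma mem_segment_iff {x1 y1 x2 y2 : ℝ} (h : x1 < x2) (p : ℝ × ℝ) :
    p ∈ segment ℝ (x1, y1) (x2, y2) ↔
      x1 ≤ p.1 ∧ p.1 ≤ x2 ∧ p.2 = y1 + (y2 - y1) / (x2 - x1) * (p.1 - x1) := by
  have hd : 0 < x2 - x1 := sub_pos.2 h
  rw [segment_eq_image]
  constructor
  · rintro ⟨t, ⟨ht0, ht1⟩, rfl⟩
    simp only [Prod.smul_mk, smul_eq_mul, Prod.mk_add_mk]
    refine ⟨by nlinarith, by nlinarith, ?_⟩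
    field_simp
    ring
  · rintro ⟨h1, h2, h3⟩
    refine ⟨(p.1 - x1) / (x2 - x1), ⟨div_nonneg (by linarith) hd.le,
      (div_le_one hd).2 (by linarith)⟩, ?_⟩
    apply Prod.ext
    · simp only [Prod.smul_mk, smul_eq_mul, Prod.mk_add_mk]
      field_simp
      ring
    · simp only [Prod.smul_mk, smul_eq_mul, Prod.mk_add_mk]
      rw [h3]
      field_simp
      ring

/-- the slope of the step `i` of a chain -/
noncomputable def slp (X Y : ℕ → ℝ) (i : ℕ) : ℝ := (Y (i + 1) - Y i) / (X (i + 1) - X i)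

/-- the affine function through the nodes `i` and `i + 1` of a chain -/
noncomputable def aff (X Y : ℕ → ℝ) (i : ℕ) (x : ℝ) : ℝ := Y i + slp X Y i * (x - X i)

lemma aff_left (X Y : ℕ → ℝ) (i : ℕ) : aff X Y i (X i) = Y i := by simp [aff]

lemma aff_right (X Y : ℕ → ℝ) (i : ℕ) (h : X i < X (i + 1)) : aff X Y i (X (i + 1)) = Y (i + 1) := by
  have : X (i + 1) - X i ≠ 0 := (sub_pos.2 h).ne'
  unfold aff slp
  field_simp
  ring

lemma mono_lt {X : ℕ → ℝ} {k : ℕ} (hX : ∀ i, i < k → X i < X (i + 1)) {i j : ℕ} (hij : i < j)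
    (hj : j ≤ k) : X i < X j := by
  induction j with
  | zero => omega
  | succ j ih =>
    rcases Nat.lt_succ_iff_lt_or_eq.1 hij with h | h
    · exact (ih h (by omega)).trans (hX j (by omega))
    · rw [h]; exact hX j (by omega)

lemma mono_le {X : ℕ → ℝ} {k : ℕ} (hX : ∀ i, i < k → X i < X (i + 1)) {i j : ℕ} (hij : i ≤ j)
    (hj : j ≤ k) : X i ≤ X j := by
  rcases hij.eq_or_lt with h | h
  · rw [h]
  · exact (mono_lt hX h hj).le

lemma exists_pl (X Y : ℕ → ℝ) (k : ℕ) (hX : ∀ i, i < k → X i < X (i + 1)) :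
    ∃ f : ℝ → ℝ, Continuous f ∧ f (X k) = Y k ∧
      ∀ i, i < k → ∀ x, X i ≤ x → x ≤ X (i + 1) → f x = aff X Y i x := by
  induction k with
  | zero => exact ⟨fun _ => Y 0, continuous_const, rfl, fun i hi => absurd hi (Nat.not_lt_zero _)⟩
  | succ k ih =>
    obtain ⟨f, hf, hfk, hfa⟩ := ih fun i hi => hX i (by omega)
    refine ⟨fun x => if x ≤ X k then f x else aff X Y k x, ?_, ?_, ?_⟩
    · apply Continuous.if_le hf _ continuous_id continuous_const
      · intro x hx
        simp only [id] at hx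
        rw [hx, hfk, aff_left]
      · unfold aff; fun_prop
    · have h := hX k (by omega)
      simp only [not_le.2 h, if_false]
      exact aff_right X Y k h
    · intro i hi x h1 h2
      rcases Nat.lt_succ_iff_lt_or_eq.1 hi with h | h
      · have : x ≤ X k := h2.trans (mono_le hX (by omega) (by omega))
        simp only [this, if_true]
        exact hfa i h x h1 h2
      · subst h
        by_cases hx : x ≤ X i
        · have : x = X i := le_antisymm hx h1
          simp only [hx, if_true]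
          rw [this, hfk, aff_left]
        · simp only [hx, if_false]

lemma exists_step {X : ℕ → ℝ} {k : ℕ} (hk : 1 ≤ k) (x : ℝ) (h0 : X 0 ≤ x) (h1 : x ≤ X k) :
    ∃ i, i < k ∧ X i ≤ x ∧ x ≤ X (i + 1) := by
  induction k with
  | zero => omega
  | succ k ih =>
    by_cases h : X k ≤ x
    · exact ⟨k, by omega, h, h1⟩
    · push Not at h
      rcases Nat.eq_zero_or_pos k with hk0 | hk0
      · subst hk0; exact absurd h0 (not_le.2 h)
      · obtain ⟨i, hi, h2, h3⟩ := ih hk0 h.le
        exact ⟨i, by omega, h2, h3⟩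

lemma inter_of_not_collinear {a b c : ℝ × ℝ} (h : ¬ Collinear ℝ {a, b, c}) :
    segment ℝ a b ∩ segment ℝ b c = {b} := by
  apply Set.Subset.antisymm
  · rintro x ⟨hx1, hx2⟩
    rw [Set.mem_singleton_iff]
    by_contra hne
    apply h
    rw [segment_symm, segment_eq_image'] at hx1
    rw [segment_eq_image'] at hx2
    obtain ⟨s, _, hs⟩ := hx1
    obtain ⟨t, _, ht⟩ := hx2
    have hs0 : s ≠ 0 := by
      rintro rfl
      apply hne
      rw [← hs]; simp
    rw [collinear_iff_of_mem (p₀ := b) (by simp)]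
    refine ⟨c - b, ?_⟩
    have key : a = (t / s) • (c - b) + b := by
      have e : s • (a - b) = t • (c - b) := by
        have : b + s • (a - b) = b + t • (c - b) := hs.trans ht.symm
        exact add_left_cancel this
      have e2 : a - b = (t / s) • (c - b) := by
        rw [div_eq_inv_mul, mul_smul, ← e, smul_smul, inv_mul_cancel₀ hs0, one_smul]
      rw [← e2]; simp
    intro p hp
    simp only [Set.mem_insert_iff, Set.mem_singleton_iff] at hp
    rcases hp with rfl | rfl | rfl
    · exact ⟨t / s, by simpa using key⟩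
    · exact ⟨0, by simp⟩
    · exact ⟨1, by simp⟩
  · rintro x rfl
    exact ⟨right_mem_segment ℝ _ _, left_mem_segment ℝ _ _⟩

lemma cross_of_collinear {a b c : ℝ × ℝ} (h : Collinear ℝ {a, b, c}) :
    (b.1 - a.1) * (c.2 - b.2) - (b.2 - a.2) * (c.1 - b.1) = 0 := by
  rw [collinear_iff_of_mem (p₀ := b) (by simp)] at h
  obtain ⟨v, hv⟩ := h
  obtain ⟨r, hr⟩ := hv a (by simp)
  obtain ⟨s, hs⟩ := hv c (by simp)
  have h1 : a.1 = r * v.1 + b.1 := by rw [hr]; simp
  have h2 : a.2 = r * v.2 + b.2 := by rw [hr]; simp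
  have h3 : c.1 = s * v.1 + b.1 := by rw [hs]; simp
  have h4 : c.2 = s * v.2 + b.2 := by rw [hs]; simp
  rw [h1, h2, h3, h4]
  ring

/-- Data describing an x-monotone polygon: the nodes `(X i, Y i)`, `i ≤ k`, of the top chain and
`(U j, W j)`, `j ≤ l`, of the bottom chain, and the piecewise linear functions `f` and `g`. -/
structure MonoData (k l : ℕ) (X Y U W : ℕ → ℝ) (f g : ℝ → ℝ) : Prop where
  hk : 1 ≤ k
  hl : 1 ≤ l
  hkl : 3 ≤ k + l
  X0 : X 0 = U 0
  Y0 : Y 0 = W 0
  Xk : X k = U l
  Yk : Y k = W l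
  Xs : ∀ i, i < k → X i < X (i + 1)
  Us : ∀ j, j < l → U j < U (j + 1)
  fc : Continuous f
  gc : Continuous g
  fa : ∀ i, i < k → ∀ x, X i ≤ x → x ≤ X (i + 1) → f x = aff X Y i x
  ga : ∀ j, j < l → ∀ x, U j ≤ x → x ≤ U (j + 1) → g x = aff U W j x
  gf : ∀ x, X 0 < x → x < X k → g x < f x
  st : ∀ i, i + 1 < k → slp X Y i ≠ slp X Y (i + 1)
  sb : ∀ j, j + 1 < l → slp U W j ≠ slp U W (j + 1)
  sl : slp X Y 0 ≠ slp U W 0
  sr : slp X Y (k - 1) ≠ slp U W (l - 1)

/-- The vertices of the polygon in cyclic order: the top chain from left to right, then the bottom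
chain from right to left. -/
noncomputable def vert (k l : ℕ) (X Y U W : ℕ → ℝ) (i : ℕ) : ℝ × ℝ :=
  if i % (k + l) ≤ k then (X (i % (k + l)), Y (i % (k + l)))
  else (U (k + l - i % (k + l)), W (k + l - i % (k + l)))

/-- The region between the graphs. -/
def region (k : ℕ) (X : ℕ → ℝ) (f g : ℝ → ℝ) : Set (ℝ × ℝ) :=
  {p | X 0 ≤ p.1 ∧ p.1 ≤ X k ∧ g p.1 ≤ p.2 ∧ p.2 ≤ f p.1}

variable {k l : ℕ} {X Y U W : ℕ → ℝ} {f g : ℝ → ℝ}

lemma vert_top (h : MonoData k l X Y U W f g) {i : ℕ} (hi : i ≤ k) :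
    vert k l X Y U W i = (X i, Y i) := by
  have h1 := h.hl
  have : i % (k + l) = i := Nat.mod_eq_of_lt (by omega)
  simp [vert, this, hi]

lemma vert_bot (h : MonoData k l X Y U W f g) {j : ℕ} (hj : j ≤ l) :
    vert k l X Y U W (k + l - j) = (U j, W j) := by
  have h1 := h.hl
  have h2 := h.hk
  rcases Nat.eq_zero_or_pos j with h0 | h0
  · subst h0
    have : (k + l - 0) % (k + l) = 0 := by simp
    simp [vert, this, h.X0, h.Y0]
  · rcases hj.eq_or_lt with h3 | h3
    · subst h3
      have e : k + j - j = k := by omega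
      rw [e, vert_top h le_rfl, h.Xk, h.Yk]
    · have e : (k + l - j) % (k + l) = k + l - j := Nat.mod_eq_of_lt (by omega)
      have e2 : ¬ (k + l - j ≤ k) := by omega
      have e3 : k + l - (k + l - j) = j := by omega
      simp [vert, e, e2, e3]

lemma vert_add (k l : ℕ) (X Y U W : ℕ → ℝ) (i : ℕ) :
    vert k l X Y U W (i + (k + l)) = vert k l X Y U W i := by
  simp [vert]

lemma edge_top (h : MonoData k l X Y U W f g) {i : ℕ} (hi : i < k) (p : ℝ × ℝ) :
    p ∈ segment ℝ (vert k l X Y U W i) (vert k l X Y U W (i + 1)) ↔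
      X i ≤ p.1 ∧ p.1 ≤ X (i + 1) ∧ p.2 = f p.1 := by
  rw [vert_top h hi.le, vert_top h hi, mem_segment_iff (h.Xs i hi)]
  constructor
  · rintro ⟨h1, h2, h3⟩
    exact ⟨h1, h2, by rw [h.fa i hi _ h1 h2]; exact h3⟩
  · rintro ⟨h1, h2, h3⟩
    exact ⟨h1, h2, by rw [h3, h.fa i hi _ h1 h2]; rfl⟩

lemma edge_bot (h : MonoData k l X Y U W f g) {j : ℕ} (hj : j < l) (p : ℝ × ℝ) :
    p ∈ segment ℝ (vert k l X Y U W (k + l - (j + 1))) (vert k l X Y U W (k + l - (j + 1) + 1)) ↔
      U j ≤ p.1 ∧ p.1 ≤ U (j + 1) ∧ p.2 = g p.1 := by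
  have e : k + l - (j + 1) + 1 = k + l - j := by omega
  rw [e, vert_bot h hj, vert_bot h hj.le, segment_symm, mem_segment_iff (h.Us j hj)]
  constructor
  · rintro ⟨h1, h2, h3⟩
    exact ⟨h1, h2, by rw [h.ga j hj _ h1 h2]; exact h3⟩
  · rintro ⟨h1, h2, h3⟩
    exact ⟨h1, h2, by rw [h3, h.ga j hj _ h1 h2]; rfl⟩

lemma fg_left (h : MonoData k l X Y U W f g) : f (X 0) = g (X 0) := by
  rw [h.fa 0 h.hk _ le_rfl (h.Xs 0 h.hk).le, aff_left, h.X0,
    h.ga 0 h.hl _ le_rfl (h.Us 0 h.hl).le, aff_left, h.Y0]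

lemma fg_right (h : MonoData k l X Y U W f g) : f (X k) = g (X k) := by
  obtain ⟨k', rfl⟩ : ∃ k', k = k' + 1 := ⟨k - 1, by have := h.hk; omega⟩
  obtain ⟨l', rfl⟩ : ∃ l', l = l' + 1 := ⟨l - 1, by have := h.hl; omega⟩
  have h1 := h.Xs k' (by omega)
  have h2 := h.Us l' (by omega)
  rw [h.fa k' (by omega) _ h1.le le_rfl, aff_right _ _ _ h1, h.Xk,
    h.ga l' (by omega) _ h2.le le_rfl, aff_right _ _ _ h2, h.Yk]

lemma fg_eq (h : MonoData k l X Y U W f g) {x : ℝ} (h0 : X 0 ≤ x) (h1 : x ≤ X k)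
    (he : f x = g x) : x = X 0 ∨ x = X k := by
  rcases h0.eq_or_lt with h2 | h2
  · exact Or.inl h2.symm
  · rcases h1.eq_or_lt with h3 | h3
    · exact Or.inr h3
    · exact absurd he (h.gf x h2 h3).ne'

lemma isClosed_region (h : MonoData k l X Y U W f g) : IsClosed (region k X f g) := by
  have hf := h.fc
  have hg := h.gc
  have e : region k X f g = {p : ℝ × ℝ | X 0 ≤ p.1} ∩ {p | p.1 ≤ X k} ∩ {p | g p.1 ≤ p.2} ∩
      {p | p.2 ≤ f p.1} := by
    ext p
    simp only [region, Set.mem_setOf_eq, Set.mem_inter_iff]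
    tauto
  rw [e]
  refine ((IsClosed.inter ?_ ?_).inter ?_).inter ?_
  · exact isClosed_le continuous_const continuous_fst
  · exact isClosed_le continuous_fst continuous_const
  · exact isClosed_le (hg.comp continuous_fst) continuous_snd
  · exact isClosed_le continuous_snd (hf.comp continuous_fst)

lemma isCompact_region (h : MonoData k l X Y U W f g) : IsCompact (region k X f g) := by
  obtain ⟨A, hA⟩ := (isCompact_Icc (a := X 0) (b := X k)).bddAbove_image h.fc.continuousOn
  obtain ⟨B, hB⟩ := (isCompact_Icc (a := X 0) (b := X k)).bddBelow_image h.gc.continuousOn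
  refine IsCompact.of_isClosed_subset (isCompact_Icc (a := ((X 0, B) : ℝ × ℝ)) (b := (X k, A)))
    (isClosed_region h) ?_
  rintro ⟨x, y⟩ ⟨h0, h1, h2, h3⟩
  simp only at h0 h1 h2 h3
  have h4 := hA (Set.mem_image_of_mem f ⟨h0, h1⟩)
  have h5 := hB (Set.mem_image_of_mem g ⟨h0, h1⟩)
  exact ⟨⟨h0, h5.trans h2⟩, ⟨h1, h3.trans h4⟩⟩

lemma interior_region (h : MonoData k l X Y U W f g) :
    interior (region k X f g) = {p | X 0 < p.1 ∧ p.1 < X k ∧ g p.1 < p.2 ∧ p.2 < f p.1} := by
  have hf := h.fc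
  have hg := h.gc
  apply Set.Subset.antisymm
  · intro p hp
    have hpr := interior_subset hp
    obtain ⟨h0, h1, h2, h3⟩ := hpr
    rw [mem_interior_iff_mem_nhds, Metric.mem_nhds_iff] at hp
    obtain ⟨ε, hε, hball⟩ := hp
    have h4 : p.2 < f p.1 := by
      have : ((p.1, p.2 + ε / 2) : ℝ × ℝ) ∈ region k X f g := by
        apply hball
        rw [Metric.mem_ball, Prod.dist_eq]
        simp only [dist_self, Real.dist_eq, add_sub_cancel_left]
        rw [abs_of_pos (by positivity)]
        exact max_lt hε (by linarith)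
      have := this.2.2.2
      simp only at this
      linarith
    have h5 : g p.1 < p.2 := by
      have : ((p.1, p.2 - ε / 2) : ℝ × ℝ) ∈ region k X f g := by
        apply hball
        rw [Metric.mem_ball, Prod.dist_eq]
        simp only [dist_self, Real.dist_eq, sub_sub_cancel_left]
        rw [abs_neg, abs_of_pos (by positivity)]
        exact max_lt hε (by linarith)
      have := this.2.2.1
      simp only at this
      linarith
    refine ⟨lt_of_le_of_ne h0 ?_, lt_of_le_of_ne h1 ?_, h5, h4⟩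
    · intro he
      have := fg_left h
      rw [he] at this
      linarith
    · intro he
      have := fg_right h
      rw [← he] at this
      linarith
  · apply interior_maximal
    · rintro p ⟨h0, h1, h2, h3⟩
      exact ⟨h0.le, h1.le, h2.le, h3.le⟩
    · have e : {p : ℝ × ℝ | X 0 < p.1 ∧ p.1 < X k ∧ g p.1 < p.2 ∧ p.2 < f p.1} =
          {p : ℝ × ℝ | X 0 < p.1} ∩ {p | p.1 < X k} ∩ {p | g p.1 < p.2} ∩ {p | p.2 < f p.1} := by
        ext p
        simp only [Set.mem_setOf_eq, Set.mem_inter_iff]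
        tauto
      rw [e]
      refine ((IsOpen.inter ?_ ?_).inter ?_).inter ?_
      · exact isOpen_lt continuous_const continuous_fst
      · exact isOpen_lt continuous_fst continuous_const
      · exact isOpen_lt (hg.comp continuous_fst) continuous_snd
      · exact isOpen_lt continuous_snd (hf.comp continuous_fst)

lemma X0_lt_Xk (h : MonoData k l X Y U W f g) : X 0 < X k :=
  mono_lt h.Xs (by have := h.hk; omega) le_rfl

lemma frontier_region (h : MonoData k l X Y U W f g) :
    frontier (region k X f g) =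
      {p | X 0 ≤ p.1 ∧ p.1 ≤ X k ∧ (p.2 = f p.1 ∨ p.2 = g p.1)} := by
  rw [(isClosed_region h).frontier_eq, interior_region h]
  have hle : ∀ x, X 0 ≤ x → x ≤ X k → g x ≤ f x := by
    intro x h0 h1
    rcases h0.eq_or_lt with h2 | h2
    · rw [← h2]; exact (fg_left h).ge
    · rcases h1.eq_or_lt with h3 | h3
      · rw [h3]; exact (fg_right h).ge
      · exact (h.gf x h2 h3).le
  ext p
  constructor
  · rintro ⟨⟨h0, h1, h2, h3⟩, hn⟩
    refine ⟨h0, h1, ?_⟩
    by_contra hc
    push Not at hc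
    apply hn
    have h4 : p.2 < f p.1 := lt_of_le_of_ne h3 hc.1
    have h5 : g p.1 < p.2 := lt_of_le_of_ne h2 (Ne.symm hc.2)
    refine ⟨lt_of_le_of_ne h0 ?_, lt_of_le_of_ne h1 ?_, h5, h4⟩
    · intro he
      have := fg_left h
      rw [he] at this
      linarith
    · intro he
      have := fg_right h
      rw [← he] at this
      linarith
  · rintro ⟨h0, h1, h2⟩
    have := hle p.1 h0 h1
    refine ⟨⟨h0, h1, ?_, ?_⟩, ?_⟩
    · rcases h2 with h2 | h2 <;> rw [h2]
      exact this
    · rcases h2 with h2 | h2 <;> rw [h2]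
      exact this
    · rintro ⟨_, _, h3, h4⟩
      rcases h2 with h2 | h2 <;> rw [h2] at h3 h4 <;> linarith

lemma not_collinear_of {a b c : ℝ × ℝ}
    (h : (b.1 - a.1) * (c.2 - b.2) - (b.2 - a.2) * (c.1 - b.1) ≠ 0) :
    ¬ Collinear ℝ {a, b, c} := fun hc => h (cross_of_collinear hc)

lemma not_collinear_vert (h : MonoData k l X Y U W f g) {i : ℕ} (hi : i < k + l) :
    ¬ Collinear ℝ {vert k l X Y U W i, vert k l X Y U W (i + 1), vert k l X Y U W (i + 2)} := by
  have hk := h.hk
  have hl := h.hl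
  have hkl := h.hkl
  have cross_ne : ∀ (A B : ℕ → ℝ) (m : ℕ), A m < A (m + 1) → A (m + 1) < A (m + 2) →
      slp A B m ≠ slp A B (m + 1) →
      (A (m + 1) - A m) * (B (m + 2) - B (m + 1)) - (B (m + 1) - B m) * (A (m + 2) - A (m + 1))
        ≠ 0 := by
    intro A B m h1 h2 h3 h4
    apply h3
    unfold slp
    rw [div_eq_div_iff (by linarith) (by linarith)]
    linarith
  by_cases h1 : i + 2 ≤ k
  · rw [vert_top h (by omega), vert_top h (by omega), vert_top h h1]
    exact not_collinear_of (cross_ne X Y i (h.Xs i (by omega)) (h.Xs (i + 1) (by omega))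
      (h.st i (by omega)))
  by_cases h2 : i + 1 = k
  · obtain ⟨l', rfl⟩ : ∃ l', l = l' + 1 := ⟨l - 1, by omega⟩
    subst h2
    have e2 : i + 2 = (i + 1) + (l' + 1) - l' := by omega
    have hs := h.sr
    simp only [add_tsub_cancel_right] at hs
    rw [vert_top h (i := i) (by omega), vert_top h (i := i + 1) le_rfl]
    conv => rw [e2]
    rw [vert_bot h (by omega)]
    have x1 := h.Xs i (by omega)
    have x2 := h.Us l' (by omega)
    have x3 := h.Xk
    have x4 := h.Yk
    apply not_collinear_of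
    simp only
    intro hc
    apply hs
    unfold slp
    rw [div_eq_div_iff (by linarith) (by linarith), ← x3, ← x4]
    linarith
  by_cases h3 : i + 2 ≤ k + l
  · obtain ⟨j, hj⟩ : ∃ j, i = k + l - (j + 2) := ⟨k + l - (i + 2), by omega⟩
    have hj2 : j + 2 ≤ l := by omega
    have e1 : i + 1 = k + l - (j + 1) := by omega
    have e2 : i + 2 = k + l - j := by omega
    rw [e1, e2, hj, vert_bot h (by omega), vert_bot h (by omega), vert_bot h (by omega)]
    have := cross_ne U W j (h.Us j (by omega)) (h.Us (j + 1) (by omega)) (h.sb j (by omega))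
    apply not_collinear_of
    simp only
    intro hc
    apply this
    linarith
  · have e : i = k + l - 1 := by omega
    have e1 : i + 1 = k + l - 0 := by omega
    have e2 : i + 2 = 1 + (k + l) := by omega
    rw [e2, vert_add, e1, e, vert_bot h (by omega), vert_bot h (by omega), vert_top h (by omega)]
    have x1 := h.Xs 0 (by omega)
    have x2 := h.Us 0 (by omega)
    have x3 := h.X0
    have x4 := h.Y0
    have hs := h.sl
    apply not_collinear_of
    simp only
    intro hc
    apply hs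
    unfold slp
    simp only [zero_add] at x1 x2 ⊢
    rw [div_eq_div_iff (by linarith) (by linarith), x3, x4]
    linarith

theorem isPolygon (h : MonoData k l X Y U W f g) :
    IsPolygon (k + l) (vert k l X Y U W) (region k X f g) := by
  have hk := h.hk
  have hl := h.hl
  refine ⟨h.hkl, vert_add k l X Y U W, ?_, ?_, ?_, isCompact_region h, ?_, ?_⟩
  · intro i hi
    exact inter_of_not_collinear (not_collinear_vert h hi)
  · intro i hi
    exact not_collinear_vert h hi
  · intro i j hij hj hji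
    rw [Set.disjoint_left]
    intro p hp1 hp2
    by_cases h1 : j < k
    · rw [edge_top h (by omega)] at hp1
      rw [edge_top h h1] at hp2
      have := mono_lt h.Xs hij h1.le
      linarith [hp1.2.1, hp2.1]
    · push Not at h1
      obtain ⟨b, hb⟩ : ∃ b, j = k + l - (b + 1) := ⟨k + l - (j + 1), by omega⟩
      have hbl : b < l := by omega
      rw [hb, edge_bot h hbl] at hp2
      by_cases h2 : i < k
      · rw [edge_top h h2] at hp1
        have a1 : X 0 ≤ p.1 := (mono_le h.Xs (Nat.zero_le i) h2.le).trans hp1.1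
        have a2 : p.1 ≤ X k := hp1.2.1.trans (mono_le h.Xs (Nat.succ_le_of_lt h2) le_rfl)
        rcases fg_eq h a1 a2 (hp1.2.2.symm.trans hp2.2.2) with h3 | h3
        · have hi0 : i = 0 := by
            by_contra hne
            have := mono_lt h.Xs (Nat.pos_of_ne_zero hne) h2.le
            linarith [hp1.1]
          have hb0 : b = 0 := by
            by_contra hne
            have := mono_lt h.Us (Nat.pos_of_ne_zero hne) hbl.le
            linarith [hp2.1, h.X0]
          omega
        · have hi0 : i + 1 = k := by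
            by_contra hne
            have := mono_lt h.Xs (i := i + 1) (j := k) (by omega) le_rfl
            linarith [hp1.2.1]
          have hb0 : b + 1 = l := by
            by_contra hne
            have := mono_lt h.Us (i := b + 1) (j := l) (by omega) le_rfl
            linarith [hp2.2.1, h.Xk]
          omega
      · push Not at h2
        obtain ⟨c, hc⟩ : ∃ c, i = k + l - (c + 1) := ⟨k + l - (i + 1), by omega⟩
        have hcl : c < l := by omega
        rw [hc, edge_bot h hcl] at hp1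
        have := mono_lt h.Us (i := b + 1) (j := c) (by omega) hcl.le
        linarith [hp1.1, hp2.2.1]
  · rw [interior_region h]
    have := X0_lt_Xk h
    have h1 := h.gf ((X 0 + X k) / 2) (by linarith) (by linarith)
    refine ⟨((X 0 + X k) / 2, (g ((X 0 + X k) / 2) + f ((X 0 + X k) / 2)) / 2), ?_, ?_, ?_, ?_⟩ <;>
      simp only <;> linarith
  · rw [frontier_region h]
    ext p
    constructor
    · rintro ⟨h0, h1, h2 | h2⟩
      · obtain ⟨i, hi, h3, h4⟩ := exists_step hk p.1 h0 h1
        exact ⟨i, by omega, (edge_top h hi p).2 ⟨h3, h4, h2⟩⟩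
      · rw [h.X0] at h0
        rw [h.Xk] at h1
        obtain ⟨j, hj, h3, h4⟩ := exists_step hl p.1 h0 h1
        exact ⟨k + l - (j + 1), by omega, (edge_bot h hj p).2 ⟨h3, h4, h2⟩⟩
    · rintro ⟨i, hi, hp⟩
      by_cases h1 : i < k
      · rw [edge_top h h1] at hp
        exact ⟨(mono_le h.Xs (Nat.zero_le i) h1.le).trans hp.1,
          hp.2.1.trans (mono_le h.Xs (Nat.succ_le_of_lt h1) le_rfl), Or.inl hp.2.2⟩
      · push Not at h1
        obtain ⟨b, hb⟩ : ∃ b, i = k + l - (b + 1) := ⟨k + l - (i + 1), by omega⟩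
        have hbl : b < l := by omega
        rw [hb, edge_bot h hbl] at hp
        refine ⟨?_, ?_, Or.inr hp.2.2⟩
        · rw [h.X0]
          exact (mono_le h.Us (Nat.zero_le b) hbl.le).trans hp.1
        · rw [h.Xk]
          exact hp.2.1.trans (mono_le h.Us (Nat.succ_le_of_lt hbl) le_rfl)

end Pool.Agent.R146.VG
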