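import Pool.Agent.R146.VG.Geo

/-!
# Visibility in our polygons
-/

set_option autoImplicit false

namespace Pool.Agent.R146.VG

open Set

lemma aff_comb (X Y : ℕ → ℝ) (i : ℕ) (x y a b : ℝ) (hab : a + b = 1) :
    aff X Y i (a * x + b * y) = a * aff X Y i x + b * aff X Y i y := by
  have : b = 1 - a := by linarith
  subst this
  unfold aff
  ring

lemma convex_above (X Y : ℕ → ℝ) (i : ℕ) : Convex ℝ {p : ℝ × ℝ | aff X Y i p.1 ≤ p.2} := by
  intro p hp q hq a b ha hb hab
  simp only [Set.mem_setOf_eq, Prod.fst_add, Prod.smul_fst, smul_eq_mul, Prod.snd_add,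
    Prod.smul_snd] at hp hq ⊢
  rw [aff_comb _ _ _ _ _ _ _ hab]
  have := mul_le_mul_of_nonneg_left hp ha
  have := mul_le_mul_of_nonneg_left hq hb
  linarith

lemma convex_below (X Y : ℕ → ℝ) (i : ℕ) : Convex ℝ {p : ℝ × ℝ | p.2 ≤ aff X Y i p.1} := by
  intro p hp q hq a b ha hb hab
  simp only [Set.mem_setOf_eq, Prod.fst_add, Prod.smul_fst, smul_eq_mul, Prod.snd_add,
    Prod.smul_snd] at hp hq ⊢
  rw [aff_comb _ _ _ _ _ _ _ hab]
  have := mul_le_mul_of_nonneg_left hp ha
  have := mul_le_mul_of_nonneg_left hq hb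
  linarith

section
variable {m s : ℕ} {d : ℕ → ℕ} {f g : ℝ → ℝ}

/-- the set above all supporting lines of the bottom chain -/
def up (m s : ℕ) : Set (ℝ × ℝ) :=
  {p | 0 ≤ p.1 ∧ p.1 ≤ m ∧ ∀ e, e < m - 2 + s + 1 → aff (bU m s) (bW m s) e p.1 ≤ p.2}

lemma convex_up (m s : ℕ) : Convex ℝ (up m s) := by
  intro p hp q hq a b ha hb hab
  refine ⟨?_, ?_, fun e he => convex_above _ _ e (hp.2.2 e he) (hq.2.2 e he) ha hb hab⟩
  · simp only [Prod.fst_add, Prod.smul_fst, smul_eq_mul]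
    have := mul_nonneg ha hp.1
    have := mul_nonneg hb hq.1
    linarith
  · simp only [Prod.fst_add, Prod.smul_fst, smul_eq_mul]
    have := mul_le_mul_of_nonneg_left hp.2.1 ha
    have := mul_le_mul_of_nonneg_left hq.2.1 hb
    have e : (m : ℝ) = a * m + b * m := by rw [← add_mul, hab, one_mul]
    rw [e]
    linarith

/-- the assumptions -/
structure Good (m s : ℕ) (d : ℕ → ℕ) (f g : ℝ → ℝ) : Prop where
  hm : 4 ≤ m
  hs : s ≤ 2
  hd : ∀ i, i < m → 1 ≤ d i ∧ d i ≤ m
  data : MonoData (2 * m) (m - 2 + s + 1) (tX m) (tY m d) (bU m s) (bW m s) f g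
  f0 : ∀ x : ℝ, 0 ≤ x → x ≤ m → 0 ≤ f x
  g0 : ∀ x : ℝ, 0 ≤ x → x ≤ m → g x ≤ 0

lemma mem_up (h : Good m s d f g) {p : ℝ × ℝ} (h0 : 0 ≤ p.1) (h1 : p.1 ≤ m)
    (h2 : g p.1 ≤ p.2) : p ∈ up m s := by
  refine ⟨h0, h1, fun e he => ?_⟩
  obtain ⟨j, hj, h3, h4⟩ := exists_step (X := bU m s) (k := m - 2 + s + 1) (by omega) p.1
    (by rw [bU_zero]; exact h0) (by rw [bU_last]; exact h1)
  have := aff_le (U := bU m s) (W := bW m s) (l := m - 2 + s + 1)
    (fun j hj => bU_lt h.hm h.hs hj) (fun j hj => slp_bot_lt h.hm h.hs (by omega)) hj h3 h4 he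
  rw [← h.data.ga j hj _ h3 h4] at this
  linarith

lemma g_le (h : Good m s d f g) {p : ℝ × ℝ} (hp : p ∈ up m s) : g p.1 ≤ p.2 := by
  obtain ⟨j, hj, h3, h4⟩ := exists_step (X := bU m s) (k := m - 2 + s + 1) (by omega) p.1
    (by rw [bU_zero]; exact hp.1) (by rw [bU_last]; exact hp.2.1)
  rw [h.data.ga j hj _ h3 h4]
  exact hp.2.2 j hj

lemma tX_zero (m : ℕ) : tX m 0 = 0 := by have := tX_even m 0; simpa using this

lemma mem_region (h : Good m s d f g) {p : ℝ × ℝ} (hp : p ∈ up m s) (hf : p.2 ≤ f p.1) :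
    p ∈ region (2 * m) (tX m) f g := by
  refine ⟨?_, ?_, g_le h hp, hf⟩
  · rw [tX_zero]; exact hp.1
  · rw [tX_even]; exact hp.2.1

lemma vis_low (h : Good m s d f g) {p q : ℝ × ℝ} (hp : p ∈ up m s) (hq : q ∈ up m s)
    (hp2 : p.2 ≤ 0) (hq2 : q.2 ≤ 0) : segment ℝ p q ⊆ region (2 * m) (tX m) f g := by
  intro x hx
  have hxu := (convex_up m s).segment_subset hp hq hx
  apply mem_region h hxu
  refine le_trans ?_ (h.f0 _ hxu.1 hxu.2.1)
  rw [segment_eq_image] at hx
  obtain ⟨t, ⟨h0, h1⟩, rfl⟩ := hx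
  simp only [Prod.snd_add, Prod.smul_snd, smul_eq_mul]
  nlinarith

lemma aff_even (hm : 4 ≤ m) (a : ℕ) (x : ℝ) :
    aff (tX m) (tY m d) (2 * a) x = 1 / d a * (x - a) := by
  unfold aff
  rw [slp_top_even hm, tX_even, tY_even, zero_add]

lemma aff_odd (hm : 4 ≤ m) (a : ℕ) (x : ℝ) :
    aff (tX m) (tY m d) (2 * a + 1) x = - ((1 - dl m) / d a / dl m) * (x - (a + 1)) := by
  have := dl_pos hm
  unfold aff
  rw [slp_top_odd hm, tX_odd, tY_odd]
  have e : (1 - dl m) / (d a : ℝ) = (1 - dl m) / d a / dl m * dl m := by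
    rw [div_mul_cancel₀ _ this.ne']
  conv_lhs => rw [e]
  have e2 : (1 - dl m) / (d a : ℝ) / dl m * dl m / dl m = (1 - dl m) / d a / dl m := by
    rw [mul_div_assoc, div_self this.ne', mul_one]
  rw [e2]
  ring

/-- the notch vertex -/
noncomputable def Tp (m : ℕ) (d : ℕ → ℕ) (a : ℕ) : ℝ × ℝ := (a + 1 - dl m, (1 - dl m) / d a)
/-- the tooth vertex -/
noncomputable def Rp (r : ℕ) : ℝ × ℝ := (r, 0)
/-- the bottom vertex -/
noncomputable def Bp (m s : ℕ) (j : ℕ) : ℝ × ℝ := (bx s j, - bz m s j)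

lemma Tp_aff_even (hm : 4 ≤ m) (a : ℕ) :
    aff (tX m) (tY m d) (2 * a) (Tp m d a).1 = (Tp m d a).2 := by
  have h := aff_right (tX m) (tY m d) (2 * a) (tX_lt hm _)
  rw [tX_odd, tY_odd] at h
  exact h

lemma Tp_aff_odd (a : ℕ) :
    aff (tX m) (tY m d) (2 * a + 1) (Tp m d a).1 = (Tp m d a).2 := by
  have h := aff_left (tX m) (tY m d) (2 * a + 1)
  rw [tX_odd, tY_odd] at h
  exact h

lemma Tp_mem (h : Good m s d f g) {a : ℕ} (ha : a < m) : Tp m d a ∈ up m s := by
  have h1 := dl_pos h.hm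
  have h2 := dl_le h.hm
  have h3 : (a : ℝ) + 1 ≤ m := by exact_mod_cast ha
  have h4 : (0 : ℝ) ≤ a := Nat.cast_nonneg _
  have h5 : (0 : ℝ) ≤ (a : ℝ) + 1 - dl m := by linarith
  have h6 : (a : ℝ) + 1 - dl m ≤ m := by linarith
  refine mem_up h h5 h6 ((h.g0 _ h5 h6).trans ?_)
  exact div_nonneg (by linarith) (Nat.cast_nonneg _)

lemma Rp_mem (h : Good m s d f g) {r : ℕ} (hr : r ≤ m) : Rp r ∈ up m s := by
  have h3 : (r : ℝ) ≤ m := by exact_mod_cast hr
  have h4 : (0 : ℝ) ≤ r := Nat.cast_nonneg _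
  exact mem_up h h4 h3 (h.g0 _ h4 h3)

lemma Bp_mem (h : Good m s d f g) {j : ℕ} (hj : j < m - 2 + s) : Bp m s j ∈ up m s := by
  have h1 := bx_pos s j
  have h2 := bx_lt h.hm h.hs hj
  refine mem_up h h1.le (by simp only [Bp]; linarith) ?_
  have h3 := bU_lt h.hm h.hs (j := j) (by omega)
  have h4 := h.data.ga j (by omega) (bU m s (j + 1)) h3.le le_rfl
  rw [aff_right _ _ _ h3, bU_succ _ _ _ hj, bW_succ _ _ _ hj] at h4
  exact h4.le

lemma f_nat (h : Good m s d f g) {a : ℕ} (ha : a ≤ m) : f a = 0 := by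
  rcases ha.eq_or_lt with h1 | h1
  · subst h1
    obtain ⟨b, rfl⟩ : ∃ b, a = b + 1 := ⟨a - 1, by have := h.hm; omega⟩
    have h2 := tX_lt h.hm (2 * b + 1)
    have h3 := h.data.fa (2 * b + 1) (by omega) (tX (b + 1) (2 * b + 1 + 1)) h2.le le_rfl
    rw [aff_right _ _ _ h2] at h3
    have e : 2 * b + 1 + 1 = 2 * (b + 1) := by ring
    rw [e, tX_even, tY_even] at h3
    exact h3
  · have h2 := tX_lt h.hm (2 * a)
    have h3 := h.data.fa (2 * a) (by omega) (tX m (2 * a)) le_rfl h2.le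
    rw [aff_left, tX_even, tY_even] at h3
    exact h3

/-- visibility through the opening of a notch -/
lemma vis_T (h : Good m s d f g) {a : ℕ} (ha : a < m) {q : ℝ × ℝ} (hq : q ∈ up m s)
    (h1 : q.2 ≤ aff (tX m) (tY m d) (2 * a) q.1)
    (h2 : q.2 ≤ aff (tX m) (tY m d) (2 * a + 1) q.1) :
    segment ℝ (Tp m d a) q ⊆ region (2 * m) (tX m) f g := by
  have d1 := dl_pos h.hm
  have d2 := dl_le h.hm
  have hd0 : (0 : ℝ) < d a := by exact_mod_cast (h.hd a ha).1
  intro x hx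
  have hxu := (convex_up m s).segment_subset (Tp_mem h ha) hq hx
  have hx1 : x.2 ≤ aff (tX m) (tY m d) (2 * a) x.1 :=
    (convex_below (tX m) (tY m d) (2 * a)).segment_subset
      (show Tp m d a ∈ {p : ℝ × ℝ | p.2 ≤ aff (tX m) (tY m d) (2 * a) p.1} from
        (Tp_aff_even h.hm a).ge) h1 hx
  have hx2 : x.2 ≤ aff (tX m) (tY m d) (2 * a + 1) x.1 :=
    (convex_below (tX m) (tY m d) (2 * a + 1)).segment_subset
      (show Tp m d a ∈ {p : ℝ × ℝ | p.2 ≤ aff (tX m) (tY m d) (2 * a + 1) p.1} from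
        (Tp_aff_odd a).ge) h2 hx
  apply mem_region h hxu
  by_cases h0 : x.2 ≤ 0
  · exact h0.trans (h.f0 _ hxu.1 hxu.2.1)
  · push Not at h0
    have h3 : (a : ℝ) < x.1 := by
      have := h0.trans_le hx1
      rw [aff_even h.hm] at this
      have hdi : 0 < 1 / (d a : ℝ) := by positivity
      have := (mul_pos_iff_of_pos_left hdi).1 this
      linarith
    have h4 : x.1 < a + 1 := by
      have := h0.trans_le hx2
      rw [aff_odd h.hm, neg_mul, neg_pos] at this
      by_contra hc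
      push Not at hc
      have h5 : 0 ≤ (1 - dl m) / (d a : ℝ) / dl m :=
        div_nonneg (div_nonneg (by linarith) hd0.le) d1.le
      have := mul_nonneg h5 (sub_nonneg.2 hc)
      linarith
    by_cases h5 : x.1 ≤ tX m (2 * a + 1)
    · rw [h.data.fa (2 * a) (by omega) x.1 (by rw [tX_even]; exact h3.le) h5]
      exact hx1
    · push Not at h5
      rw [h.data.fa (2 * a + 1) (by omega) x.1 h5.le]
      · exact hx2
      · have e : 2 * a + 1 + 1 = 2 * (a + 1) := by ring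
        rw [e, tX_even]
        push_cast
        exact h4.le

lemma not_vis_left (h : Good m s d f g) {a : ℕ} (ha : a < m) {q : ℝ × ℝ} (hq : q.1 < a)
    (h1 : aff (tX m) (tY m d) (2 * a) q.1 < q.2) :
    ¬ segment ℝ (Tp m d a) q ⊆ region (2 * m) (tX m) f g := by
  have d1 := dl_pos h.hm
  have d2 := dl_le h.hm
  intro hsub
  set t : ℝ := ((Tp m d a).1 - a) / ((Tp m d a).1 - q.1) with ht
  have hT : (Tp m d a).1 = a + 1 - dl m := rfl
  have hpos : 0 < (Tp m d a).1 - q.1 := by rw [hT]; linarith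
  have ht0 : 0 < t := div_pos (by rw [hT]; linarith) hpos
  have ht1 : t ≤ 1 := by rw [ht, div_le_one hpos]; linarith
  have hx : (1 - t) • Tp m d a + t • q ∈ segment ℝ (Tp m d a) q := by
    rw [segment_eq_image]
    exact ⟨t, ⟨ht0.le, ht1⟩, rfl⟩
  have hr := hsub hx
  have e1 : ((1 - t) • Tp m d a + t • q).1 = a := by
    simp only [Prod.fst_add, Prod.smul_fst, smul_eq_mul]
    have : t * ((Tp m d a).1 - q.1) = (Tp m d a).1 - a := by
      rw [ht, div_mul_cancel₀ _ hpos.ne']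
    linarith
  have h2 := hr.2.2.2
  rw [e1, f_nat h ha.le] at h2
  have h3 : (0 : ℝ) = aff (tX m) (tY m d) (2 * a) a := by rw [aff_even h.hm]; simp
  have h4 := aff_comb (tX m) (tY m d) (2 * a) (Tp m d a).1 q.1 (1 - t) t (by ring)
  have e1' : (1 - t) * (Tp m d a).1 + t * q.1 = a := by
    simpa only [Prod.fst_add, Prod.smul_fst, smul_eq_mul] using e1
  rw [e1', ← h3, Tp_aff_even h.hm] at h4
  simp only [Prod.snd_add, Prod.smul_snd, smul_eq_mul] at h2
  have := mul_lt_mul_of_pos_left h1 ht0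
  linarith

lemma not_vis_right (h : Good m s d f g) {a : ℕ} (ha : a < m) {q : ℝ × ℝ} (hq : (a : ℝ) + 1 < q.1)
    (h1 : aff (tX m) (tY m d) (2 * a + 1) q.1 < q.2) :
    ¬ segment ℝ (Tp m d a) q ⊆ region (2 * m) (tX m) f g := by
  have d1 := dl_pos h.hm
  have d2 := dl_le h.hm
  intro hsub
  set t : ℝ := ((a + 1) - (Tp m d a).1) / (q.1 - (Tp m d a).1) with ht
  have hT : (Tp m d a).1 = a + 1 - dl m := rfl
  have hpos : 0 < q.1 - (Tp m d a).1 := by rw [hT]; linarith
  have ht0 : 0 < t := div_pos (by rw [hT]; linarith) hpos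
  have ht1 : t ≤ 1 := by rw [ht, div_le_one hpos]; linarith
  have hx : (1 - t) • Tp m d a + t • q ∈ segment ℝ (Tp m d a) q := by
    rw [segment_eq_image]
    exact ⟨t, ⟨ht0.le, ht1⟩, rfl⟩
  have hr := hsub hx
  have e1 : ((1 - t) • Tp m d a + t • q).1 = ((a + 1 : ℕ) : ℝ) := by
    simp only [Prod.fst_add, Prod.smul_fst, smul_eq_mul]
    have : t * (q.1 - (Tp m d a).1) = (a + 1) - (Tp m d a).1 := by
      rw [ht, div_mul_cancel₀ _ hpos.ne']
    push_cast
    linarith
  have h2 := hr.2.2.2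
  rw [e1, f_nat h ha] at h2
  have h3 : (0 : ℝ) = aff (tX m) (tY m d) (2 * a + 1) ((a + 1 : ℕ) : ℝ) := by
    rw [aff_odd h.hm]; push_cast; simp
  have h4 := aff_comb (tX m) (tY m d) (2 * a + 1) (Tp m d a).1 q.1 (1 - t) t (by ring)
  have e1' : (1 - t) * (Tp m d a).1 + t * q.1 = ((a + 1 : ℕ) : ℝ) := by
    simpa only [Prod.fst_add, Prod.smul_fst, smul_eq_mul] using e1
  rw [e1', ← h3, Tp_aff_odd] at h4
  simp only [Prod.snd_add, Prod.smul_snd, smul_eq_mul] at h2
  have := mul_lt_mul_of_pos_left h1 ht0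
  linarith

lemma vis_TR (h : Good m s d f g) {a r : ℕ} (ha : a < m) (hr : r ≤ m) :
    segment ℝ (Tp m d a) (Rp r) ⊆ region (2 * m) (tX m) f g ↔ r = a ∨ r = a + 1 := by
  have d1 := dl_pos h.hm
  have d2 := dl_le h.hm
  have hd0 : (0 : ℝ) < d a := by exact_mod_cast (h.hd a ha).1
  have hpos : 0 < (1 - dl m) / (d a : ℝ) / dl m := div_pos (div_pos (by linarith) hd0) d1
  constructor
  · intro hsub
    by_contra hc
    push Not at hc
    rcases Nat.lt_or_ge r a with h1 | h1
    · have hlt : (r : ℝ) < a := by exact_mod_cast h1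
      refine not_vis_left h ha (q := Rp r) hlt ?_ hsub
      rw [aff_even h.hm]
      simp only [Rp]
      exact mul_neg_of_pos_of_neg (by positivity) (by linarith)
    · have hlt : (a : ℝ) + 1 < r := by exact_mod_cast (by omega : a + 1 < r)
      refine not_vis_right h ha (q := Rp r) hlt ?_ hsub
      rw [aff_odd h.hm]
      simp only [Rp]
      rw [neg_mul, neg_lt_zero]
      exact mul_pos hpos (by linarith)
  · rintro (rfl | rfl)
    · apply vis_T h ha (Rp_mem h hr)
      · rw [aff_even h.hm]; simp [Rp]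
      · rw [aff_odd h.hm]
        simp only [Rp]
        have : -((1 - dl m) / (d r : ℝ) / dl m) * ((r : ℝ) - (r + 1)) =
          (1 - dl m) / (d r : ℝ) / dl m := by ring
        rw [this]
        exact hpos.le
    · apply vis_T h ha (Rp_mem h hr)
      · rw [aff_even h.hm]
        simp only [Rp]
        push_cast
        have : 1 / (d a : ℝ) * (a + 1 - a) = 1 / d a := by ring
        rw [this]
        positivity
      · rw [aff_odd h.hm]; simp [Rp]

lemma not_vis_TT (h : Good m s d f g) {a b : ℕ} (ha : a < m) (hab : b < a) :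
    ¬ segment ℝ (Tp m d a) (Tp m d b) ⊆ region (2 * m) (tX m) f g := by
  have d1 := dl_pos h.hm
  have d2 := dl_le h.hm
  have hd0 : (0 : ℝ) < d a := by exact_mod_cast (h.hd a ha).1
  have hlt : (b : ℝ) + 1 ≤ a := by exact_mod_cast hab
  apply not_vis_left h ha
  · simp only [Tp]; linarith
  · rw [aff_even h.hm]
    simp only [Tp]
    have h1 : 1 / (d a : ℝ) * (b + 1 - dl m - a) < 0 :=
      mul_neg_of_pos_of_neg (by positivity) (by linarith)
    exact h1.trans_le (div_nonneg (by linarith) (Nat.cast_nonneg _))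

lemma vis_TB (h : Good m s d f g) {a j : ℕ} (ha : a < m) (hj : j < m - 2 + s) :
    segment ℝ (Tp m d a) (Bp m s j) ⊆ region (2 * m) (tX m) f g ↔
      (j - s ≤ a ∧ a ≤ j - s + d a) := by
  have d1 := dl_pos h.hm
  have d2 := dl_le h.hm
  have hd0 : (1 : ℝ) ≤ d a := by exact_mod_cast (h.hd a ha).1
  have hdm : (d a : ℝ) ≤ m := by exact_mod_cast (h.hd a ha).2
  have hm4 : (4 : ℝ) ≤ m := by exact_mod_cast h.hm
  have hpos : 0 < (1 - dl m) / (d a : ℝ) / dl m :=
    div_pos (div_pos (by linarith) (by linarith)) d1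
  have x1 := bx_ge s j
  have x2 := bx_le h.hs j
  have z1 := bz_ge h.hm h.hs hj
  have z2 := bz_le (s := s) h.hm j
  constructor
  · intro hsub
    by_contra hc
    rcases Nat.lt_or_ge a (j - s) with h1 | h1
    · have hlt : (a : ℝ) + 1 ≤ ((j - s : ℕ) : ℝ) := by exact_mod_cast h1
      refine not_vis_right h ha (q := Bp m s j) (by simp only [Bp]; linarith) ?_ hsub
      rw [aff_odd h.hm]
      simp only [Bp]
      rw [neg_mul, neg_lt_neg_iff]
      have k1 : (31 / 4 : ℝ) ≤ (1 - dl m) / (d a : ℝ) / dl m := by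
        rw [le_div_iff₀ d1, le_div_iff₀ (by linarith)]
        have e : dl m * m = 1 / 8 := by
          unfold dl
          have : (m : ℝ) ≠ 0 := by linarith
          field_simp
        have e2 : dl m * d a ≤ dl m * m := mul_le_mul_of_nonneg_left hdm d1.le
        nlinarith
      have k2 : (1 : ℝ) / (4 * m) ≤ 1 / 16 := by
        rw [div_le_div_iff₀ (by linarith) (by norm_num)]; linarith
      have k3 : (1 : ℝ) / 4 ≤ bx s j - (a + 1) := by linarith
      have k4 := mul_le_mul k1 k3 (by norm_num) hpos.le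
      linarith
    · have h2 : j - s + d a < a := by
        by_contra h3
        exact hc ⟨h1, by omega⟩
      have hlt : ((j - s : ℕ) : ℝ) + d a + 1 ≤ a := by exact_mod_cast h2
      refine not_vis_left h ha (q := Bp m s j) (by simp only [Bp]; linarith) ?_ hsub
      rw [aff_even h.hm]
      simp only [Bp]
      rw [one_div, inv_mul_lt_iff₀ (by linarith)]
      have k2 : (d a : ℝ) * bz m s j ≤ d a + 1 / 4 := by
        have e1 : (d a : ℝ) * bz m s j ≤ d a * (1 + 1 / (4 * m)) :=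
          mul_le_mul_of_nonneg_left z2 (by linarith)
        have e2 : (d a : ℝ) * (1 / (4 * m)) ≤ 1 / 4 := by
          rw [mul_one_div, div_le_div_iff₀ (by linarith) (by norm_num)]
          linarith
        linarith
      linarith
  · rintro ⟨h1, h2⟩
    have hlt1 : ((j - s : ℕ) : ℝ) ≤ a := by exact_mod_cast h1
    have hlt2 : (a : ℝ) ≤ ((j - s : ℕ) : ℝ) + d a := by exact_mod_cast h2
    apply vis_T h ha (Bp_mem h hj)
    · rw [aff_even h.hm]
      simp only [Bp]
      rw [one_div, le_inv_mul_iff₀ (by linarith)]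
      have : (d a : ℝ) ≤ d a * bz m s j := by nlinarith
      linarith
    · rw [aff_odd h.hm]
      simp only [Bp]
      rw [neg_mul, neg_le_neg_iff]
      have : (1 - dl m) / (d a : ℝ) / dl m * (bx s j - (a + 1)) ≤ 0 :=
        mul_nonpos_of_nonneg_of_nonpos hpos.le (by linarith)
      linarith

/-- the number of vertices -/
def nv (m s : ℕ) : ℕ := 2 * m + (m - 2 + s + 1)

/-- the numbering of the vertices -/
def num (m s : ℕ) : (Fin (m + 1) ⊕ Fin (m - 2 + s)) ⊕ Fin m → Fin (nv m s)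
  | .inl (.inl r) => ⟨2 * r.val, by unfold nv; omega⟩
  | .inl (.inr j) => ⟨nv m s - (j.val + 1), by unfold nv; omega⟩
  | .inr t => ⟨2 * t.val + 1, by unfold nv; omega⟩

lemma num_injective (m s : ℕ) : Function.Injective (num m s) := by
  rintro ((r | j) | t) ((r' | j') | t') h <;> simp only [num, nv, Fin.mk.injEq] at h
  · have : r = r' := Fin.ext (by omega)
    rw [this]
  · omega
  · omega
  · omega
  · have := j.isLt
    have := j'.isLt
    have : j = j' := Fin.ext (by omega)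
    rw [this]
  · omega
  · omega
  · omega
  · have : t = t' := Fin.ext (by omega)
    rw [this]

lemma num_bijective (hm : 4 ≤ m) (s : ℕ) : Function.Bijective (num m s) := by
  rw [Fintype.bijective_iff_injective_and_card]
  refine ⟨num_injective m s, ?_⟩
  rw [Fintype.card_sum, Fintype.card_sum, Fintype.card_fin, Fintype.card_fin, Fintype.card_fin,
    Fintype.card_fin]
  unfold nv
  omega

/-- position of the vertices -/
noncomputable def pos (m s : ℕ) (d : ℕ → ℕ) : (Fin (m + 1) ⊕ Fin (m - 2 + s)) ⊕ Fin m → ℝ × ℝ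
  | .inl (.inl r) => Rp r
  | .inl (.inr j) => Bp m s j
  | .inr t => Tp m d t

lemma vert_num (h : Good m s d f g) (x : (Fin (m + 1) ⊕ Fin (m - 2 + s)) ⊕ Fin m) :
    vert (2 * m) (m - 2 + s + 1) (tX m) (tY m d) (bU m s) (bW m s) (num m s x).val =
      pos m s d x := by
  rcases x with ((r | j) | t)
  · simp only [num, pos]
    rw [vert_top h.data (by omega), tX_even, tY_even]
    rfl
  · simp only [num, pos, nv]
    rw [vert_bot h.data (by omega), bU_succ _ _ _ j.isLt, bW_succ _ _ _ j.isLt]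
    rfl
  · simp only [num, pos]
    rw [vert_top h.data (by omega), tX_odd, tY_odd]
    rfl

lemma adj_iff (h : Good m s d f g) (x y : (Fin (m + 1) ⊕ Fin (m - 2 + s)) ⊕ Fin m) :
    (x ≠ y ∧ segment ℝ (pos m s d x) (pos m s d y) ⊆ region (2 * m) (tX m) f g) ↔
      (split (rel m s d)).Adj x y := by
  have hKT : ∀ k t, segment ℝ (pos m s d (.inr t)) (pos m s d (.inl k)) ⊆
      region (2 * m) (tX m) f g ↔ rel m s d k t := by
    rintro (r | j) t
    · exact vis_TR h t.isLt (by omega)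
    · exact vis_TB h t.isLt j.isLt
  have hK : ∀ k, pos m s d (.inl k) ∈ up m s ∧ (pos m s d (.inl k)).2 ≤ 0 := by
    rintro (r | j)
    · exact ⟨Rp_mem h (by omega), le_rfl⟩
    · refine ⟨Bp_mem h j.isLt, ?_⟩
      have := bz_ge h.hm h.hs j.isLt
      simp only [pos, Bp]
      linarith
  rcases x with k | t <;> rcases y with k' | t'
  · constructor
    · rintro ⟨h1, _⟩
      exact fun h2 => h1 (by rw [h2])
    · intro h1
      exact ⟨fun h2 => h1 (Sum.inl_injective h2),
        vis_low h (hK k).1 (hK k').1 (hK k).2 (hK k').2⟩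
  · rw [segment_symm, hKT]
    exact ⟨fun h1 => h1.2, fun h1 => ⟨by simp, h1⟩⟩
  · rw [hKT]
    exact ⟨fun h1 => h1.2, fun h1 => ⟨by simp, h1⟩⟩
  · constructor
    · rintro ⟨h1, h2⟩
      have hne : t.val ≠ t'.val := fun h3 => h1 (by rw [Fin.ext h3])
      rcases Nat.lt_or_gt_of_ne hne with h3 | h3
      · rw [segment_symm] at h2
        exact not_vis_TT h t'.isLt h3 h2
      · exact not_vis_TT h t.isLt h3 h2
    · intro h1
      exact absurd h1 id

theorem exists_polygon (hm : 4 ≤ m) (hs : s ≤ 2) (hd : ∀ i, i < m → 1 ≤ d i ∧ d i ≤ m) :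
    ∃ v P, IsPolygon (nv m s) v P ∧ Nonempty (visGraph (nv m s) v P ≃g split (rel m s d)) := by
  obtain ⟨f, g, hdata, hf, hg⟩ := monoData hm hs hd
  have h : Good m s d f g := ⟨hm, hs, hd, hdata, hf, hg⟩
  refine ⟨vert (2 * m) (m - 2 + s + 1) (tX m) (tY m d) (bU m s) (bW m s),
    region (2 * m) (tX m) f g, isPolygon hdata, ⟨?_⟩⟩
  refine (RelIso.symm ⟨Equiv.ofBijective (num m s) (num_bijective hm s), ?_⟩)
  intro x y
  rw [← adj_iff h]
  simp only [visGraph, Equiv.ofBijective_apply, vert_num h]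
  rw [(num_injective m s).ne_iff]

end

end Pool.Agent.R146.VG
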